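import Mathlib
import Pool.Agent.W521.Sieve

/-!
# The sieve bound for a set of primes of positive density
-/

set_option autoImplicit false

namespace Pool.Agent.W484.TB

open Filter Asymptotics Pool.Agent.W521.Turan Pool.Agent.W521.Sieve

theorem prime_count_set (U : Set ℕ) (c₀ : ℝ) (hc₀ : 0 < c₀)
    (hU : ∀ᶠ N : ℕ in atTop, c₀ * (Nat.primeCounting N : ℝ) ≤
      (Nat.card {l : ℕ // l ≤ N ∧ l.Prime ∧ l ∈ U} : ℝ)) (K : ℝ) :
    ∀ᶠ n : ℕ in atTop, c₀ * ((n : ℝ) / (4 * Real.log n)) + K ≤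
      (Nat.card {l : ℕ // l ≤ n ∧ l.Prime ∧ l ∈ U} : ℝ) := by
  filter_upwards [hU, prime_count (K / c₀)] with n h1 h2
  refine le_trans ?_ h1
  have h3 := mul_le_mul_of_nonneg_left h2 hc₀.le
  have h4 : c₀ * (K / c₀) = K := by field_simp
  rw [mul_add, h4] at h3
  exact h3

open Classical in
/-- The primes used. -/
noncomputable def primesIn (U : Set ℕ) (q l₀ Q : ℕ) : Finset ℕ :=
  (Finset.range (Q + 1)).filter (fun l => l.Prime ∧ l ∈ U ∧ l₀ ≤ l ∧ ¬ l ∣ q)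

theorem card_primesIn (U : Set ℕ) {q : ℕ} (hq : IsPrimePow q) (l₀ Q : ℕ) :
    Nat.card {l : ℕ // l ≤ Q ∧ l.Prime ∧ l ∈ U} ≤ (primesIn U q l₀ Q).card + (l₀ + 1) := by
  classical
  rw [isPrimePow_nat_iff] at hq
  obtain ⟨p, n, hp, hn, rfl⟩ := hq
  have h1 : Nat.card {l : ℕ // l ≤ Q ∧ l.Prime ∧ l ∈ U} =
      ((Finset.range (Q + 1)).filter (fun l => l.Prime ∧ l ∈ U)).card := by
    refine Nat.subtype_card _ ?_
    intro l
    rw [Finset.mem_filter, Finset.mem_range, Nat.lt_succ_iff]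
  rw [h1]
  have h2 : (Finset.range (Q + 1)).filter (fun l => l.Prime ∧ l ∈ U) ⊆
      primesIn U (p ^ n) l₀ Q ∪ (Finset.range l₀ ∪ {p}) := by
    intro l hl
    obtain ⟨h3, h4, h4'⟩ := Finset.mem_filter.1 hl
    rw [Finset.mem_union, Finset.mem_union, Finset.mem_singleton, Finset.mem_range]
    by_cases h5 : l₀ ≤ l
    · by_cases h6 : l ∣ p ^ n
      · right
        right
        exact (Nat.prime_dvd_prime_iff_eq h4 hp).1 (h4.dvd_of_dvd_pow h6)
      · left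
        exact Finset.mem_filter.2 ⟨h3, h4, h4', h5, h6⟩
    · right
      left
      omega
  refine (Finset.card_le_card h2).trans ((Finset.card_union_le _ _).trans ?_)
  refine Nat.add_le_add_left ((Finset.card_union_le _ _).trans ?_) _
  rw [Finset.card_range, Finset.card_singleton]

open Classical in
/-- The sieve bound. -/
theorem sieve_bound_set (U : Set ℕ) (c₀ : ℝ) (hc₀ : 0 < c₀)
    (hU : ∀ᶠ N : ℕ in atTop, c₀ * (Nat.primeCounting N : ℝ) ≤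
      (Nat.card {l : ℕ // l ≤ N ∧ l.Prime ∧ l ∈ U} : ℝ))
    (n : ℕ) (c : ℝ) (hc : 0 < c) (l₀ : ℕ) : ∃ C : ℝ, 0 < C ∧ ∀ q : ℕ,
    IsPrimePow q → ∀ {ι : Type} [Fintype ι] [DecidableEq ι], Fintype.card ι = n →
    ∀ Ω : ∀ l : ℕ, Finset (ι → ZMod l), (∀ l : ℕ, l.Prime → l ∈ U → l₀ ≤ l → ¬ l ∣ q →
      c * (l : ℝ) ^ n ≤ ((Ω l).card : ℝ)) →
    ∀ (lo : ι → ℤ) (N : ι → ℕ), (∀ s, Real.sqrt q ≤ N s) →
    (((box lo N).filter (fun x => ∀ l : ℕ, l.Prime → l ∈ U → l₀ ≤ l → ¬ l ∣ q →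
      red l x ∉ Ω l)).card : ℝ) ≤
      C * (Real.log q * (q : ℝ) ^ (-(1 / 6) : ℝ)) * ∏ s, (N s : ℝ) := by
  -- the threshold
  have hev : ∀ᶠ q : ℕ in atTop, c₀ * (((⌊(q : ℝ) ^ (1 / 6 : ℝ)⌋₊ : ℕ) : ℝ) /
      (4 * Real.log (⌊(q : ℝ) ^ (1 / 6 : ℝ)⌋₊ : ℕ))) + (l₀ + 1 : ℕ) ≤
      (Nat.card {l : ℕ // l ≤ ⌊(q : ℝ) ^ (1 / 6 : ℝ)⌋₊ ∧ l.Prime ∧ l ∈ U} : ℝ) ∧
      3 ≤ ⌊(q : ℝ) ^ (1 / 6 : ℝ)⌋₊ := by
    have ht : Tendsto (fun q : ℕ => ⌊(q : ℝ) ^ (1 / 6 : ℝ)⌋₊) atTop atTop :=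
      tendsto_nat_floor_atTop.comp ((tendsto_rpow_atTop (by norm_num)).comp
        tendsto_natCast_atTop_atTop)
    exact (ht.eventually (prime_count_set U c₀ hc₀ hU _)).and
      (ht.eventually (eventually_ge_atTop 3))
  obtain ⟨q₀, hq₀⟩ := eventually_atTop.1 hev
  set C₁ : ℝ := 8 / (c₀ * c ^ 2) + n / (c ^ 2 * Real.log 2) with hC₁
  set C₂ : ℝ := ((q₀ : ℝ) + 1) / Real.log 2 with hC₂
  have hl2 : 0 < Real.log 2 := Real.log_pos (by norm_num)
  have hC₁' : 0 < C₁ := by positivity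
  have hC₂' : 0 < C₂ := by positivity
  refine ⟨C₁ + C₂, by positivity, ?_⟩
  intro q hq ι _ _ hn Ω hΩ lo N hN
  have hq2 : 2 ≤ q := hq.two_le
  have hqR : (2 : ℝ) ≤ q := by exact_mod_cast hq2
  have hq0 : (0 : ℝ) < q := by linarith
  have hlogq : Real.log 2 ≤ Real.log q := Real.log_le_log (by norm_num) hqR
  have hlogq' : 0 < Real.log q := by linarith
  have hpow : 0 < (q : ℝ) ^ (-(1 / 6) : ℝ) := Real.rpow_pos_of_pos hq0 _
  have hprod : (0 : ℝ) ≤ ∏ s, (N s : ℝ) := Finset.prod_nonneg fun s _ => Nat.cast_nonneg _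
  by_cases hlt : q < q₀
  · -- small `q`
    have h1 : (((box lo N).filter
        (fun x => ∀ l : ℕ, l.Prime → l ∈ U → l₀ ≤ l → ¬ l ∣ q → red l x ∉ Ω l)).card : ℝ) ≤
        ∏ s, (N s : ℝ) := by
      have h2 := Finset.card_filter_le (box lo N)
        (fun x => ∀ l : ℕ, l.Prime → l ∈ U → l₀ ≤ l → ¬ l ∣ q → red l x ∉ Ω l)
      rw [card_box] at h2
      exact_mod_cast h2
    refine h1.trans ?_
    have h2 : 1 ≤ (C₁ + C₂) * (Real.log q * (q : ℝ) ^ (-(1 / 6) : ℝ)) := by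
      have h3 : (q : ℝ)⁻¹ ≤ (q : ℝ) ^ (-(1 / 6) : ℝ) := by
        rw [← Real.rpow_neg_one]
        exact Real.rpow_le_rpow_of_exponent_le (by linarith) (by norm_num)
      have h4 : (q : ℝ) < q₀ := by exact_mod_cast hlt
      calc (1 : ℝ) ≤ ((q₀ : ℝ) + 1) * (q : ℝ)⁻¹ := by
            rw [← div_eq_mul_inv, le_div_iff₀ hq0]
            linarith
        _ = C₂ * (Real.log 2 * (q : ℝ)⁻¹) := by
            rw [hC₂]
            field_simp
        _ ≤ C₂ * (Real.log q * (q : ℝ) ^ (-(1 / 6) : ℝ)) := by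
            refine mul_le_mul_of_nonneg_left ?_ hC₂'.le
            exact mul_le_mul hlogq h3 (by positivity) hlogq'.le
        _ ≤ (C₁ + C₂) * (Real.log q * (q : ℝ) ^ (-(1 / 6) : ℝ)) := by
            refine mul_le_mul_of_nonneg_right ?_ (by positivity)
            linarith
    calc ∏ s, (N s : ℝ) = 1 * ∏ s, (N s : ℝ) := (one_mul _).symm
      _ ≤ _ := mul_le_mul_of_nonneg_right h2 hprod
  · push Not at hlt
    obtain ⟨h1, h2⟩ := hq₀ q hlt
    set Q : ℕ := ⌊(q : ℝ) ^ (1 / 6 : ℝ)⌋₊ with hQ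
    set P := primesIn U q l₀ Q with hP
    have hx0 : 0 < (q : ℝ) ^ (1 / 6 : ℝ) := Real.rpow_pos_of_pos hq0 _
    have hQle : (Q : ℝ) ≤ (q : ℝ) ^ (1 / 6 : ℝ) := Nat.floor_le hx0.le
    have hQ3 : (3 : ℝ) ≤ Q := by exact_mod_cast h2
    have hQge : (q : ℝ) ^ (1 / 6 : ℝ) ≤ 2 * Q := by
      have := Nat.lt_floor_add_one ((q : ℝ) ^ (1 / 6 : ℝ))
      rw [← hQ] at this
      linarith
    have hlogQ : 0 < Real.log Q := Real.log_pos (by linarith)
    have hlogQ' : Real.log Q ≤ Real.log q := by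
      refine Real.log_le_log (by linarith) (hQle.trans ?_)
      calc (q : ℝ) ^ (1 / 6 : ℝ) ≤ (q : ℝ) ^ (1 : ℝ) :=
            Real.rpow_le_rpow_of_exponent_le (by linarith) (by norm_num)
        _ = q := Real.rpow_one _
    have hPcard : c₀ * ((Q : ℝ) / (4 * Real.log Q)) ≤ P.card := by
      have h3 : (Nat.card {l : ℕ // l ≤ Q ∧ l.Prime ∧ l ∈ U} : ℝ) ≤
          (P.card : ℝ) + (l₀ + 1 : ℕ) := by
        exact_mod_cast card_primesIn U hq l₀ Q
      linarith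
    have hPcard' : c₀ * ((q : ℝ) ^ (1 / 6 : ℝ) / (8 * Real.log q)) ≤ P.card := by
      refine le_trans (mul_le_mul_of_nonneg_left ?_ hc₀.le) hPcard
      rw [div_le_div_iff₀ (by positivity) (by positivity)]
      have h5 : (0 : ℝ) < Q := by linarith
      calc (q : ℝ) ^ (1 / 6 : ℝ) * (4 * Real.log Q) ≤ (2 * Q) * (4 * Real.log q) :=
            mul_le_mul hQge (by linarith) (by positivity) (by positivity)
        _ = Q * (8 * Real.log q) := by ring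
    have hPpos : (0 : ℝ) < P.card := lt_of_lt_of_le (by positivity) hPcard'
    have hPne : P.Nonempty := Finset.card_pos.1 (by exact_mod_cast hPpos)
    have hPmem : ∀ l ∈ P, l.Prime ∧ l ∈ U ∧ l₀ ≤ l ∧ ¬ l ∣ q := fun l hl => by
      rw [hP, primesIn, Finset.mem_filter] at hl
      exact hl.2
    have hPQ : ∀ l ∈ P, (l : ℝ) ≤ (q : ℝ) ^ (1 / 6 : ℝ) := by
      intro l hl
      rw [hP, primesIn, Finset.mem_filter] at hl
      have h3 := Finset.mem_range.1 hl.1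
      have h4 : (l : ℝ) ≤ Q := by
        have : l ≤ Q := by omega
        exact_mod_cast this
      linarith
    have key := turan P (fun l hl => (hPmem l hl).1) ((q : ℝ) ^ (1 / 6 : ℝ)) hPQ Ω c hc
      (fun l hl => by
        rw [hn]
        exact hΩ l (hPmem l hl).1 (hPmem l hl).2.1 (hPmem l hl).2.2.1 (hPmem l hl).2.2.2)
      lo N (Real.sqrt q) (Real.sqrt_pos.2 hq0) hN hPne
    have hsub : (((box lo N).filter
        (fun x => ∀ l : ℕ, l.Prime → l ∈ U → l₀ ≤ l → ¬ l ∣ q → red l x ∉ Ω l)).card : ℝ) ≤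
        (((box lo N).filter (fun x => ∀ l ∈ P, red l x ∉ Ω l)).card : ℝ) := by
      have : ((box lo N).filter
        (fun x => ∀ l : ℕ, l.Prime → l ∈ U → l₀ ≤ l → ¬ l ∣ q → red l x ∉ Ω l)).card ≤
        ((box lo N).filter (fun x => ∀ l ∈ P, red l x ∉ Ω l)).card := by
        refine Finset.card_le_card ?_
        intro x hx
        obtain ⟨h3, h4⟩ := Finset.mem_filter.1 hx
        exact Finset.mem_filter.2 ⟨h3, fun l hl => h4 l (hPmem l hl).1 (hPmem l hl).2.1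
          (hPmem l hl).2.2.1 (hPmem l hl).2.2.2⟩
      exact_mod_cast this
    refine hsub.trans (key.trans (mul_le_mul_of_nonneg_right ?_ hprod))
    have t1 : 1 / (c ^ 2 * (P.card : ℝ)) ≤
        8 / (c₀ * c ^ 2) * (Real.log q * (q : ℝ) ^ (-(1 / 6) : ℝ)) := by
      have h5 : 1 / (c ^ 2 * (P.card : ℝ)) ≤
          1 / (c ^ 2 * (c₀ * ((q : ℝ) ^ (1 / 6 : ℝ) / (8 * Real.log q)))) := by
        refine one_div_le_one_div_of_le (by positivity) ?_
        exact mul_le_mul_of_nonneg_left hPcard' (by positivity)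
      refine h5.trans (le_of_eq ?_)
      rw [Real.rpow_neg hq0.le]
      field_simp
    have t2 : (Fintype.card ι : ℝ) * ((q : ℝ) ^ (1 / 6 : ℝ)) ^ 2 / (c ^ 2 * Real.sqrt q) ≤
        n / (c ^ 2 * Real.log 2) * (Real.log q * (q : ℝ) ^ (-(1 / 6) : ℝ)) := by
      rw [← exp_identity hq0, hn]
      have h6 : (n : ℝ) * ((q : ℝ) ^ (1 / 6 : ℝ)) ^ 2 / (c ^ 2 * Real.sqrt q) =
          n / (c ^ 2 * Real.log 2) *
            (Real.log 2 * (((q : ℝ) ^ (1 / 6 : ℝ)) ^ 2 / Real.sqrt q)) := by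
        field_simp
      rw [h6]
      refine mul_le_mul_of_nonneg_left ?_ (by positivity)
      exact mul_le_mul_of_nonneg_right hlogq (by positivity)
    calc 1 / (c ^ 2 * (P.card : ℝ)) +
        (Fintype.card ι : ℝ) * ((q : ℝ) ^ (1 / 6 : ℝ)) ^ 2 / (c ^ 2 * Real.sqrt q) ≤
        C₁ * (Real.log q * (q : ℝ) ^ (-(1 / 6) : ℝ)) := by
          rw [hC₁, add_mul]
          exact add_le_add t1 t2
      _ ≤ (C₁ + C₂) * (Real.log q * (q : ℝ) ^ (-(1 / 6) : ℝ)) := by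
          refine mul_le_mul_of_nonneg_right ?_ (by positivity)
          linarith

end Pool.Agent.W484.TB
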