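import Mathlib
import Pool.Agent.W484.TB.Sieve
import Pool.Agent.W521.Total
import Pool.Agent.W484.AA.Mixed

/-!
# The exceptional points of the box for a set of primes of positive density
-/

set_option autoImplicit false

namespace Pool.Agent.W484.TB

open Filter Polynomial Pool.Agent.W521.Frob Pool.Agent.W521.Descent Pool.Agent.W521.Density
  Pool.Agent.W521.Count Pool.Agent.W521.Turan Pool.Agent.W521.Sieve Pool.Agent.W521.Bad
  Pool.Agent.W521.Total

/-- The set `U` contains a positive proportion of the primes. -/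
def Dense (U : Set ℕ) : Prop :=
  ∃ c₀ : ℝ, 0 < c₀ ∧ ∀ᶠ N : ℕ in atTop, c₀ * (Nat.primeCounting N : ℝ) ≤
    (Nat.card {l : ℕ // l ≤ N ∧ l.Prime ∧ l ∈ U} : ℝ)

/-- The good points. -/
def GoodU (U : Set ℕ) {I : Type} (g : I → ℕ) (q : ℕ) (x : (Σ i, Fin (g i)) → ℤ) : Prop :=
  (∀ i, ∃ l : ℕ, l.Prime ∧ l ≠ 2 ∧ ¬ l ∣ q ∧ l ∈ U ∧ FlipPattern q (polys g x) i l) ∧
    (∀ i, Irreducible ((polys g x i).map (Int.castRingHom ℚ))) ∧
    ∀ i, ¬ (q : ℤ) ∣ (polys g x i).nextCoeff ^ 2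

section

variable {I : Type} [Fintype I] [DecidableEq I] (g : I → ℕ)

theorem flip_of_not_set (U : Set ℕ) {q : ℕ} {i : I} {x : (Σ i, Fin (g i)) → ℤ} {l₀ : ℕ}
    (hl₀ : 3 ≤ l₀) (hg : ∀ i, 0 < g i)
    (h : ¬ ∀ l : ℕ, l.Prime → l ∈ U → l₀ ≤ l → ¬ l ∣ q → red l x ∉ evF g q i l) :
    ∃ l : ℕ, l.Prime ∧ l ≠ 2 ∧ ¬ l ∣ q ∧ l ∈ U ∧ FlipPattern q (polys g x) i l := by
  by_contra hcon
  apply h
  intro l hl hlU hl0 hlq hmem
  apply hcon
  have : Fact l.Prime := ⟨hl⟩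
  have h2 : evF g q i l = flipEvent g q i l := by
    unfold evF
    rw [dif_pos hl]
  rw [h2] at hmem
  exact ⟨l, hl, by omega, hlq, hlU, flipPattern_of_mem g hg q i l x hmem⟩

open Classical in
theorem bad_count_set (U : Set ℕ) (hU : Dense U) (hg : ∀ i, 0 < g i) :
    ∃ C : ℝ, 0 < C ∧ ∀ q : ℕ, IsPrimePow q →
    (((box (lo g q) (len g q)).filter (fun x => ¬ GoodU U g q x)).card : ℝ) ≤
      C * rate q * ∏ s, (len g q s : ℝ) := by
  obtain ⟨c₀, hc₀, hU⟩ := hU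
  have hcardι : Fintype.card (Σ i, Fin (g i)) = ∑ i, g i := by
    rw [Fintype.card_sigma]
    simp
  set cF : ℝ := 1 / (∏ i, 4 ^ g i * (g i).factorial : ℕ) with hcF
  set cI : ℝ := 1 / (∏ i, 2 * g i : ℕ) with hcI
  have hcFpos : 0 < cF := by
    have : 0 < (∏ i, 4 ^ g i * (g i).factorial : ℕ) :=
      Finset.prod_pos fun i _ => by positivity
    positivity
  have hcIpos : 0 < cI := by
    have : 0 < (∏ i, 2 * g i : ℕ) := Finset.prod_pos fun i _ => by have := hg i; positivity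
    positivity
  set l₀ : ℕ := ∑ i, (4 * g i + 12) + 3 with hl₀
  have hl₀' : ∀ i l, l₀ ≤ l → 4 * g i + 12 ≤ l := by
    intro i l hl
    have := Finset.single_le_sum (f := fun i => 4 * g i + 12) (fun j _ => Nat.zero_le _)
      (Finset.mem_univ i)
    omega
  obtain ⟨CF, hCF, hF⟩ := sieve_bound_set U c₀ hc₀ hU (Fintype.card (Σ i, Fin (g i))) cF hcFpos l₀
  obtain ⟨CI, hCI, hI⟩ := sieve_bound (Fintype.card (Σ i, Fin (g i))) cI hcIpos l₀
  choose CS hCS hS using ss_count g hg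
  refine ⟨(∑ i, (CF + CI + CS i)) + 1, ?_, ?_⟩
  · have : 0 ≤ ∑ i, (CF + CI + CS i) := Finset.sum_nonneg fun i _ => by
      have := hCS i
      positivity
    linarith
  intro q hq
  have hq0 := hq.pos
  have hprod : (0 : ℝ) ≤ ∏ s, (len g q s : ℝ) := Finset.prod_nonneg fun s _ => Nat.cast_nonneg _
  have hlen : ∀ s, Real.sqrt q ≤ (len g q s : ℝ) := sqrt_le_len g hq0
  -- the three kinds of exceptional sets
  let ZF : I → Finset ((Σ i, Fin (g i)) → ℤ) := fun i => (box (lo g q) (len g q)).filter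
    (fun x => ∀ l : ℕ, l.Prime → l ∈ U → l₀ ≤ l → ¬ l ∣ q → red l x ∉ evF g q i l)
  let ZI : I → Finset ((Σ i, Fin (g i)) → ℤ) := fun i => (box (lo g q) (len g q)).filter
    (fun x => ∀ l : ℕ, l.Prime → l₀ ≤ l → ¬ l ∣ q → red l x ∉ evI g i l)
  let ZS : I → Finset ((Σ i, Fin (g i)) → ℤ) := fun i => (box (lo g q) (len g q)).filter
    (fun x => (q : ℤ) ∣ (polys g x i).nextCoeff ^ 2)
  have hZF : ∀ i, ((ZF i).card : ℝ) ≤ CF * rate q * ∏ s, (len g q s : ℝ) := by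
    intro i
    refine hF q hq rfl (evF g q i) ?_ (lo g q) (len g q) hlen
    intro l hl _ hl0 hlq
    have : Fact l.Prime := ⟨hl⟩
    have h1 := flipEvent_lower g hg q i l (fun j => hl₀' j l hl0) hlq
    have h2 : evF g q i l = flipEvent g q i l := by
      unfold evF
      rw [dif_pos hl]
    rw [h2, hcF, hcardι, one_div, inv_mul_le_iff₀ (by
      have : 0 < (∏ i, 4 ^ g i * (g i).factorial : ℕ) :=
        Finset.prod_pos fun i _ => by positivity
      exact_mod_cast this)]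
    exact_mod_cast h1
  have hZI : ∀ i, ((ZI i).card : ℝ) ≤ CI * rate q * ∏ s, (len g q s : ℝ) := by
    intro i
    refine hI q hq rfl (evI g i) ?_ (lo g q) (len g q) hlen
    intro l hl hl0 hlq
    have : Fact l.Prime := ⟨hl⟩
    have h1 := irrEvent_lower g hg i l (by omega)
    have h2 : evI g i l = irrEvent g i l := by
      unfold evI
      rw [dif_pos hl]
    rw [h2, hcI, hcardι, one_div, inv_mul_le_iff₀ (by
      have : 0 < (∏ i, 2 * g i : ℕ) := Finset.prod_pos fun i _ => by have := hg i; positivity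
      exact_mod_cast this)]
    exact_mod_cast h1
  have hsub : (box (lo g q) (len g q)).filter (fun x => ¬ GoodU U g q x) ⊆
      Finset.univ.biUnion (fun i => ZF i ∪ ZI i ∪ ZS i) := by
    intro x hx
    obtain ⟨h1, h2⟩ := Finset.mem_filter.1 hx
    by_contra h3
    apply h2
    have h4 : ∀ i, x ∉ ZF i ∧ x ∉ ZI i ∧ x ∉ ZS i := by
      intro i
      have h5 : x ∉ ZF i ∪ ZI i ∪ ZS i := fun h6 =>
        h3 (Finset.mem_biUnion.2 ⟨i, Finset.mem_univ i, h6⟩)
      rw [Finset.mem_union, Finset.mem_union] at h5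
      exact ⟨fun h => h5 (Or.inl (Or.inl h)), fun h => h5 (Or.inl (Or.inr h)),
        fun h => h5 (Or.inr h)⟩
    refine ⟨fun i => ?_, fun i => ?_, fun i => ?_⟩
    · exact flip_of_not_set g U (l₀ := l₀) (by omega) hg
        (fun h => (h4 i).1 (Finset.mem_filter.2 ⟨h1, h⟩))
    · exact irr_of_not g (l₀ := l₀) (fun h => (h4 i).2.1 (Finset.mem_filter.2 ⟨h1, h⟩))
    · exact fun h => (h4 i).2.2 (Finset.mem_filter.2 ⟨h1, h⟩)
  have hcard : (((box (lo g q) (len g q)).filter (fun x => ¬ GoodU U g q x)).card : ℝ) ≤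
      ∑ i, (((ZF i).card : ℝ) + (ZI i).card + (ZS i).card) := by
    have h1 := Finset.card_le_card hsub
    have h2 := h1.trans (Finset.card_biUnion_le)
    have h3 : ∑ i, (ZF i ∪ ZI i ∪ ZS i).card ≤ ∑ i, ((ZF i).card + (ZI i).card + (ZS i).card) := by
      refine Finset.sum_le_sum fun i _ => ?_
      refine (Finset.card_union_le _ _).trans (Nat.add_le_add_right (Finset.card_union_le _ _) _)
    exact_mod_cast h2.trans h3
  calc (((box (lo g q) (len g q)).filter (fun x => ¬ GoodU U g q x)).card : ℝ) ≤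
      ∑ i, (((ZF i).card : ℝ) + (ZI i).card + (ZS i).card) := hcard
    _ ≤ ∑ i, ((CF + CI + CS i) * rate q * ∏ s, (len g q s : ℝ)) := by
        refine Finset.sum_le_sum fun i _ => ?_
        have h1 := hZF i
        have h2 := hZI i
        have h3 : ((ZS i).card : ℝ) ≤ CS i * rate q * ∏ s, (len g q s : ℝ) := hS i q hq
        have h4 : (CF + CI + CS i) * rate q * ∏ s, (len g q s : ℝ) =
          CF * rate q * ∏ s, (len g q s : ℝ) + CI * rate q * ∏ s, (len g q s : ℝ) +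
            CS i * rate q * ∏ s, (len g q s : ℝ) := by ring
        rw [h4]
        linarith
    _ = (∑ i, (CF + CI + CS i)) * rate q * ∏ s, (len g q s : ℝ) := by
        rw [← Finset.sum_mul, ← Finset.sum_mul]
    _ ≤ ((∑ i, (CF + CI + CS i)) + 1) * rate q * ∏ s, (len g q s : ℝ) := by
        refine mul_le_mul_of_nonneg_right ?_ hprod
        refine mul_le_mul_of_nonneg_right ?_ (rate_nonneg q)
        linarith

theorem main_count_set (U : Set ℕ) (hU : Dense U) (hg : ∀ i, 0 < g i) :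
    ∃ C : ℝ, 0 < C ∧ ∀ q : ℕ, IsPrimePow q →
    ∀ P : (I → ℤ[X]) → Prop, (∀ x, GoodU U g q x → P (fun i => weil q (polys g x i))) →
    ({f : I → ℤ[X] | (∀ i, f i ∈ weilPolys q (g i)) ∧ ¬ P f}.ncard : ℝ) ≤
      C * rate q * ∏ i, ((ordinaryWeilPolys q (g i)).ncard : ℝ) := by
  classical
  obtain ⟨C, hC, hbad⟩ := bad_count_set g U hU hg
  have hK : 0 < ∏ i, ((3 * 4 ^ g i) ^ g i * (4 * 2 ^ (g i ^ 2)) : ℝ) :=
    Finset.prod_pos fun i _ => by positivity
  refine ⟨C * ∏ i, ((3 * 4 ^ g i) ^ g i * (4 * 2 ^ (g i ^ 2))), mul_pos hC hK, ?_⟩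
  intro q hq P hP
  have hq0 := hq.pos
  let F : ((Σ i, Fin (g i)) → ℤ) → (I → ℤ[X]) := fun x i => weil q (polys g x i)
  have hsub : {f : I → ℤ[X] | (∀ i, f i ∈ weilPolys q (g i)) ∧ ¬ P f} ⊆
      F '' (((box (lo g q) (len g q)).filter (fun x => ¬ GoodU U g q x) : Finset _) : Set _) := by
    rintro f ⟨hf, hPf⟩
    choose x hx hxb using fun i => exists_point hq0.ne' (hf i)
    have hfx : f = F (fun s => x s.1 s.2) := by
      funext i
      exact hx i
    refine ⟨fun s => x s.1 s.2, ?_, hfx.symm⟩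
    rw [Finset.mem_coe, Finset.mem_filter]
    constructor
    · unfold box
      rw [Fintype.mem_piFinset]
      intro s
      rw [Finset.mem_Ico]
      have h1 := abs_le.1 (hxb s.1 s.2)
      unfold lo len
      push_cast
      omega
    · intro hgood
      apply hPf
      rw [hfx]
      exact hP _ hgood
  have h1 := Set.ncard_le_ncard hsub ((Finset.finite_toSet _).image _)
  have h2 := h1.trans (Set.ncard_image_le (Finset.finite_toSet _))
  rw [Set.ncard_coe_finset] at h2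
  have h3 := hbad q hq
  have h4 : ({f : I → ℤ[X] | (∀ i, f i ∈ weilPolys q (g i)) ∧ ¬ P f}.ncard : ℝ) ≤
      (((box (lo g q) (len g q)).filter (fun x => ¬ GoodU U g q x)).card : ℝ) := by
    exact_mod_cast h2
  calc ({f : I → ℤ[X] | (∀ i, f i ∈ weilPolys q (g i)) ∧ ¬ P f}.ncard : ℝ) ≤
      C * rate q * ∏ s, (len g q s : ℝ) := h4.trans h3
    _ ≤ C * rate q * ((∏ i, ((3 * 4 ^ g i) ^ g i * (4 * 2 ^ (g i ^ 2)))) *
      ∏ i, ((ordinaryWeilPolys q (g i)).ncard : ℝ)) :=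
        mul_le_mul_of_nonneg_left (prod_len_le g hq hg) (mul_nonneg hC.le (rate_nonneg q))
    _ = _ := by ring

end

/-- **The count.** -/
theorem count_of_goodU (U : Set ℕ) (hU : Dense U) {I : Type} [Fintype I] (g : I → ℕ)
    (hg : ∀ i, 0 < g i) (P : ℕ → (I → ℤ[X]) → Prop)
    (hP : ∀ q : ℕ, IsPrimePow q → ∀ x : (Σ i, Fin (g i)) → ℤ,
      GoodU U g q x → P q (fun i => weil q (polys g x i))) :
    ∃ C : ℝ, ∀ q : ℕ, IsPrimePow q → ∀ S : I → Set ℤ[X],
      (∀ i, ordinaryWeilPolys q (g i) ⊆ S i ∧ S i ⊆ weilPolys q (g i)) →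
      (∀ i, (S i).Finite ∧ (S i).Nonempty) ∧
      ({f : I → ℤ[X] | (∀ i, f i ∈ S i) ∧ ¬ P q f}.ncard : ℝ) ≤
        C * (Real.log q * (q : ℝ) ^ (-(1 / 6) : ℝ)) * ∏ i, ((S i).ncard : ℝ) := by
  classical
  obtain ⟨C, hC, h⟩ := main_count_set g U hU hg
  refine ⟨C, fun q hq S hS => ?_⟩
  have hsub : ∀ i, S i ⊆ weilPolys q (g i) := fun i => (hS i).2
  have hfinS : ∀ i, (S i).Finite := fun i => (finite_weilPolys hq.pos.ne').subset (hsub i)
  refine ⟨fun i => ⟨hfinS i, ⟨_, (hS i).1 (ordinary_nonempty hq.pos (g i))⟩⟩, ?_⟩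
  have h1 := h q hq (P q) (fun x hx => hP q hq x hx)
  have hfin : {f : I → ℤ[X] | (∀ i, f i ∈ weilPolys q (g i)) ∧ ¬ P q f}.Finite :=
    (Pool.Agent.W521.Total.finite_tuples g hq.pos.ne').subset fun f hf => hf.1
  have h2 : {f : I → ℤ[X] | (∀ i, f i ∈ S i) ∧ ¬ P q f}.ncard ≤
      {f : I → ℤ[X] | (∀ i, f i ∈ weilPolys q (g i)) ∧ ¬ P q f}.ncard :=
    Set.ncard_le_ncard (fun f hf => ⟨fun i => hsub i (hf.1 i), hf.2⟩) hfin
  have hr : 0 ≤ Real.log q * (q : ℝ) ^ (-(1 / 6) : ℝ) := rate_nonneg q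
  calc ({f : I → ℤ[X] | (∀ i, f i ∈ S i) ∧ ¬ P q f}.ncard : ℝ) ≤ _ := by
        exact_mod_cast h2
    _ ≤ C * (Real.log q * (q : ℝ) ^ (-(1 / 6) : ℝ)) *
          ∏ i, ((ordinaryWeilPolys q (g i)).ncard : ℝ) := h1
    _ ≤ _ := by
        refine mul_le_mul_of_nonneg_left ?_ (mul_nonneg hC.le hr)
        refine Finset.prod_le_prod (fun i _ => Nat.cast_nonneg _) fun i _ => ?_
        exact_mod_cast Set.ncard_le_ncard (hS i).1 (hfinS i)

end Pool.Agent.W484.TB
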