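import Mathlib
import Pool.Agent.W401.Cheb.Main

/-!
# Primes which split completely in a Galois number field
-/

set_option autoImplicit false

namespace Pool.Agent.W484.TB

open NumberField Filter Topology Pool.Agent.W401.Cheb

/-- All Frobenius elements of `E` for the prime `l` are trivial. -/
def TrivFrob (E : Type) [Field E] [NumberField E] (l : ℕ) : Prop :=
  ∀ (k : Type) (_ : Field k) (_ : CharP k l) (φ : 𝓞 E →+* k) (σ : Gal(E/ℚ)),
    (∀ x, φ (σ • x) = φ x ^ l) → σ = 1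

theorem trivFrob_of_xp (E : Type) [Field E] [NumberField E] [IsGalois ℚ E] (l : ℕ)
    [hl : Fact l.Prime] (ht : TorAt E l) (hx : xp E 1 l ≠ 0) : TrivFrob E l := by
  classical
  intro k _ _ φ σ hσ
  -- a homomorphism with trivial Frobenius element
  obtain ⟨φ₀, hφ₀⟩ : ∃ φ₀ : 𝓞 E →+* AlgebraicClosure (ZMod l), HasFrob l φ₀ 1 := by
    unfold xp at hx
    rw [dif_pos hl.out] at hx
    obtain ⟨⟨⟨φ₀, hφ₀⟩⟩, -⟩ := Nat.card_ne_zero.1 hx
    exact ⟨φ₀, hφ₀⟩
  -- the kernel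
  set P : Ideal (𝓞 E) := RingHom.ker φ with hP
  have hPl : ((l : ℕ) : 𝓞 E) ∈ P := by
    rw [hP, RingHom.mem_ker, map_natCast, CharP.cast_eq_zero]
  have hP0 : P ≠ ⊥ := by
    intro h0
    rw [h0, Ideal.mem_bot] at hPl
    exact hl.out.ne_zero (by exact_mod_cast hPl)
  have hPp : P.IsPrime := RingHom.ker_isPrime φ
  have hPm : P.IsMaximal := hPp.isMaximal hP0
  let _ : Field (𝓞 E ⧸ P) := Ideal.Quotient.field P
  have hfin : Finite (𝓞 E ⧸ P) := Ring.HasFiniteQuotients.finiteQuotient hP0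
  have hchar : CharP (𝓞 E ⧸ P) l := by
    rw [CharP.charP_iff_prime_eq_zero hl.out, ← map_natCast (Ideal.Quotient.mk P),
      Ideal.Quotient.eq_zero_iff_mem]
    exact hPl
  let _ : Algebra (ZMod l) (𝓞 E ⧸ P) := ZMod.algebra _ l
  have halg : Algebra.IsAlgebraic (ZMod l) (𝓞 E ⧸ P) := Algebra.IsAlgebraic.of_finite _ _
  let ι : (𝓞 E ⧸ P) →ₐ[ZMod l] AlgebraicClosure (ZMod l) := IsAlgClosed.lift
  let ψ : 𝓞 E →+* AlgebraicClosure (ZMod l) := (ι : _ →+* _).comp (Ideal.Quotient.mk P)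
  have hψ : HasFrob l ψ σ := by
    intro x
    have h1 : σ • x - x ^ l ∈ P := by
      rw [hP, RingHom.mem_ker, map_sub, map_pow, hσ, sub_self]
    change ι (Ideal.Quotient.mk P (σ • x)) = (ι (Ideal.Quotient.mk P x)) ^ l
    rw [← map_pow, ← map_pow, Ideal.Quotient.eq.2 h1]
  obtain ⟨τ, hτ, -⟩ := ht.2.1 φ₀ ψ
  have hψ1 : HasFrob l ψ 1 := by
    intro x
    rw [one_smul, hτ x, ← hφ₀ (τ • x), one_smul]
  exact frob_unique ht hψ hψ1

theorem xp_le (E : Type) [Field E] [NumberField E] [IsGalois ℚ E] (l : ℕ)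
    [hl : Fact l.Prime] (ht : TorAt E l) : xp E 1 l ≤ Nat.card Gal(E/ℚ) := by
  have hfin := finite_hom ht
  unfold xp
  rw [dif_pos hl.out, ← ht.1]
  exact Nat.card_le_card_of_injective Subtype.val Subtype.val_injective

/-- **A positive proportion of the primes has trivial Frobenius elements.** -/
theorem split_count (E : Type) [Field E] [NumberField E] [IsGalois ℚ E] :
    ∃ c₀ : ℝ, 0 < c₀ ∧ ∀ᶠ N : ℕ in atTop, c₀ * (Nat.primeCounting N : ℝ) ≤
      (Nat.card {l : ℕ // l ≤ N ∧ l.Prime ∧ TrivFrob E l} : ℝ) := by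
  classical
  obtain ⟨D, hD, htor⟩ := torsor E
  have hcheb := chebotarev E 1
  set n : ℕ := Nat.card Gal(E/ℚ) with hn
  have hn0 : 0 < n := Nat.card_pos
  set A : ℕ := ∑ p ∈ Finset.range (D + 1), xp E 1 p with hA
  have hpi : Tendsto (fun N : ℕ => (Nat.primeCounting N : ℝ)) atTop atTop :=
    tendsto_natCast_atTop_atTop.comp Nat.tendsto_primeCounting
  refine ⟨1 / (4 * n), by positivity, ?_⟩
  have h1 : ∀ᶠ N : ℕ in atTop, 1 / 2 < (∑ p ∈ pr N, (xp E 1 p : ℝ)) / (Nat.primeCounting N : ℝ) :=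
    hcheb.eventually (lt_mem_nhds (by norm_num))
  filter_upwards [h1, hpi.eventually_ge_atTop (4 * A + 1 : ℝ)] with N hN1 hN2
  have hpos : (0 : ℝ) < Nat.primeCounting N := by
    have : (0 : ℝ) ≤ 4 * A := by positivity
    linarith
  rw [lt_div_iff₀ hpos] at hN1
  set S : Finset ℕ := (pr N).filter (fun p => ¬ p ∣ D ∧ xp E 1 p ≠ 0) with hS
  have hle : ∑ p ∈ pr N, xp E 1 p ≤ A + n * S.card := by
    rw [← Finset.sum_filter_add_sum_filter_not (pr N) (fun p => p ∣ D)]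
    refine Nat.add_le_add ?_ ?_
    · refine Finset.sum_le_sum_of_subset ?_
      intro p hp
      obtain ⟨-, h3⟩ := Finset.mem_filter.1 hp
      exact Finset.mem_range.2 (Nat.lt_succ_of_le (Nat.le_of_dvd hD h3))
    · rw [mul_comm, ← smul_eq_mul, ← Finset.sum_const]
      have h4 : ∑ p ∈ (pr N).filter (fun p => ¬ p ∣ D), xp E 1 p = ∑ p ∈ S, xp E 1 p := by
        symm
        refine Finset.sum_subset ?_ ?_
        · intro p hp
          rw [hS, Finset.mem_filter] at hp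
          exact Finset.mem_filter.2 ⟨hp.1, hp.2.1⟩
        · intro p hp hpS
          by_contra h0
          apply hpS
          rw [hS, Finset.mem_filter]
          exact ⟨(Finset.mem_filter.1 hp).1, (Finset.mem_filter.1 hp).2, h0⟩
      rw [h4]
      refine Finset.sum_le_sum ?_
      intro p hp
      rw [hS, Finset.mem_filter, pr, Finset.mem_filter] at hp
      have : Fact p.Prime := ⟨hp.1.2⟩
      exact xp_le E p (htor p hp.2.1)
  have hScard : (S.card : ℝ) ≤ (Nat.card {l : ℕ // l ≤ N ∧ l.Prime ∧ TrivFrob E l} : ℝ) := by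
    have hfin : Finite {l : ℕ // l ≤ N ∧ l.Prime ∧ TrivFrob E l} :=
      Set.Finite.subset (Set.finite_Iic N) fun l hl => hl.1
    have h5 : Nat.card S ≤ Nat.card {l : ℕ // l ≤ N ∧ l.Prime ∧ TrivFrob E l} := by
      refine Nat.card_le_card_of_injective (fun s : S => ⟨s.1, ?_⟩) ?_
      · have hs : (s : ℕ) ∈ (pr N).filter (fun p => ¬ p ∣ D ∧ xp E 1 p ≠ 0) := s.2
        rw [Finset.mem_filter, pr, Finset.mem_filter, Finset.mem_range] at hs
        have : Fact (s.1).Prime := ⟨hs.1.2⟩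
        exact ⟨by omega, hs.1.2, trivFrob_of_xp E s.1 (htor _ hs.2.1) hs.2.2⟩
      · intro s t hst
        exact Subtype.ext (Subtype.mk.inj hst)
    rw [Nat.card_eq_fintype_card, Fintype.card_coe] at h5
    exact_mod_cast h5
  have hle' : (∑ p ∈ pr N, (xp E 1 p : ℝ)) ≤ A + n * (S.card : ℝ) := by exact_mod_cast hle
  have hn' : (0 : ℝ) < n := by exact_mod_cast hn0
  rw [div_mul_eq_mul_div, one_mul, div_le_iff₀ (by positivity)]
  have h6 : (n : ℝ) * S.card ≤ n * (Nat.card {l : ℕ // l ≤ N ∧ l.Prime ∧ TrivFrob E l} : ℝ) :=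
    mul_le_mul_of_nonneg_left hScard hn'.le
  linarith

end Pool.Agent.W484.TB
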