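import Mathlib
import Pool.Agent.W484.TB.Flip
import Pool.Agent.W484.AA.Rank

/-!
# Relations with elements of a given number field
-/

set_option autoImplicit false

namespace Pool.Agent.W484.TB

open Polynomial NumberField Pool.Agent.W521.Frob Pool.Agent.W521.Criterion Pool.Agent.W484.AA

section

variable {I : Type*} {q : ℕ} {h : I → ℤ[X]} (hq : q ≠ 0) (hm : ∀ i, (h i).Monic)
  (L : Type) [Field L] [NumberField L] [IsGalois ℚ L] (j : L →+* ℂ)
  (hL : ∀ i, ∀ z : ℂ, aeval z (weil q (h i)) = 0 → ∃ x : L, j x = z)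
  (E : Type) [Field E] [NumberField E] [IsGalois ℚ E] [Algebra E L]

/-- There is an automorphism, trivial on `E`, which exchanges `α` and `q / α` and fixes all other
roots. -/
def FlippableOver {I : Type*} (q : ℕ) (h : I → ℤ[X]) (E : Type) [Field E] {L : Type} [Field L]
    [Algebra ℚ L] [Algebra E L] (α : L) : Prop :=
  ∃ σ : L ≃ₐ[ℚ] L, (∀ y : E, σ (algebraMap E L y) = algebraMap E L y) ∧ σ α = q / α ∧
    α ≠ q / α ∧ ∀ i, ∀ β : L, aeval β (weil q (h i)) = 0 → β ≠ α → β ≠ q / α → σ β = β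

include hq hm hL

theorem all_flippable_over (i : I) (hirr : Irreducible ((h i).map (Int.castRingHom ℚ)))
    {l : ℕ} (hl : l.Prime) (hl2 : l ≠ 2) (hlq : ¬ l ∣ q) (hlE : TrivFrob E l)
    (hpat : FlipPattern q h i l) (α : L)
    (hα : aeval α (weil q (h i)) = 0) : FlippableOver q h E α := by
  obtain ⟨σ, α₀, hFr, hα₀, h1, h2, h3⟩ := exists_flip_frob hm L (splits_h hq hm L j hL i)
    (quad_L hq hm L j hL i) hl hl2 hlq hpat
  obtain ⟨τ, hτ⟩ := exists_tau hq hm L j hL i hirr α₀ α hα₀ hα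
  have hqL : (q : L) ≠ 0 := by exact_mod_cast hq
  have hα₀0 := root_ne_zero hq (hm i) hα₀
  have hα0 := root_ne_zero hq (hm i) hα
  have hτs : ∀ x, τ (τ.symm x) = x := fun x => τ.apply_symm_apply x
  have hpre : τ.symm α = α₀ ∨ τ.symm α = q / α₀ := by
    rcases hτ with e | e
    · left
      rw [← e, τ.symm_apply_apply]
    · right
      apply τ.injective
      rw [τ.apply_symm_apply, map_div₀, map_natCast, e, div_div_cancel₀ hqL]
  have hσ' : σ (q / α₀) = α₀ := by
    rw [map_div₀, map_natCast, h1, div_div_cancel₀ hqL]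
  refine ⟨(τ.symm.trans σ).trans τ, ?_, ?_, ?_, ?_⟩
  · intro y
    rw [AlgEquiv.trans_apply, AlgEquiv.trans_apply]
    have e1 : τ.symm (algebraMap E L y) = algebraMap E L (τ.symm.restrictNormal E y) :=
      (AlgEquiv.restrictNormal_commutes _ E y).symm
    rw [e1, trivial_on hlE hFr, ← e1, hτs]
  · rw [AlgEquiv.trans_apply, AlgEquiv.trans_apply]
    rcases hpre with e | e
    · rw [e, h1, map_div₀, map_natCast]
      have h4 : τ α₀ = α := by rw [← e, hτs]
      rw [h4]
    · rw [e, hσ']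
      have h4 : τ (q / α₀) = α := by rw [← e, hτs]
      rw [map_div₀, map_natCast] at h4
      rw [← h4, div_div_cancel₀ hqL]
  · intro h4
    have h5 : τ.symm α = q / τ.symm α := by
      conv_lhs => rw [h4]
      rw [map_div₀, map_natCast]
    rcases hpre with e | e
    · rw [e] at h5
      exact h2 h5
    · rw [e, div_div_cancel₀ hqL] at h5
      exact h2 h5.symm
  · intro i' β hβ hne1 hne2
    have h4 : σ (τ.symm β) = τ.symm β := by
      refine h3 i' _ (aeval_alg L _ _ _ hβ) ?_ ?_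
      · intro e
        rcases hpre with e' | e'
        · exact hne1 (τ.symm.injective (e.trans e'.symm))
        · apply hne2
          apply τ.symm.injective
          rw [e, map_div₀, map_natCast, e', div_div_cancel₀ hqL]
      · intro e
        rcases hpre with e' | e'
        · apply hne2
          apply τ.symm.injective
          rw [e, map_div₀, map_natCast, e']
        · exact hne1 (τ.symm.injective (e.trans e'.symm))
    rw [AlgEquiv.trans_apply, AlgEquiv.trans_apply, h4, hτs]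

end

/-- An embedding of `E` in `ℂ` factors over a subfield which contains the image of a primitive
element. -/
theorem exists_factor {E L : Type} [Field E] [NumberField E] [Field L] [NumberField L]
    (e : E →+* ℂ) (j : L →+* ℂ) (θ : E) (hθ : IntermediateField.adjoin ℚ {θ} = ⊤)
    (hj : ∃ x : L, j x = e θ) : ∃ i : E →+* L, ∀ y, j (i y) = e y := by
  have hall : ∀ y : E, ∃ x : L, j x = e y := by
    intro y
    have h1 : y ∈ IntermediateField.adjoin ℚ {θ} := by
      rw [hθ]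
      exact IntermediateField.mem_top
    induction h1 using IntermediateField.adjoin_induction with
    | mem x hx =>
      rw [Set.mem_singleton_iff] at hx
      subst hx
      exact hj
    | algebraMap x =>
      refine ⟨algebraMap ℚ L x, ?_⟩
      rw [eq_ratCast, map_ratCast, eq_ratCast, map_ratCast]
    | add x y _ _ hx hy =>
      obtain ⟨a, ha⟩ := hx
      obtain ⟨b, hb⟩ := hy
      exact ⟨a + b, by rw [map_add, map_add, ha, hb]⟩
    | inv x _ hx =>
      obtain ⟨a, ha⟩ := hx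
      exact ⟨a⁻¹, by rw [map_inv₀, map_inv₀, ha]⟩
    | mul x y _ _ hx hy =>
      obtain ⟨a, ha⟩ := hx
      obtain ⟨b, hb⟩ := hy
      exact ⟨a * b, by rw [map_mul, map_mul, ha, hb]⟩
  choose i hi using hall
  refine ⟨⟨⟨⟨i, ?_⟩, ?_⟩, ?_, ?_⟩, hi⟩
  · apply j.injective
    rw [hi, map_one, map_one]
  · intro x y
    apply j.injective
    rw [hi, map_mul, map_mul, hi, hi]
  · apply j.injective
    change j (i 0) = j 0
    rw [hi, map_zero, map_zero]
  · intro x y
    apply j.injective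
    change j (i (x + y)) = j (i x + i y)
    rw [hi, map_add, map_add, hi, hi]

/-- **No relations with elements of `E`.** -/
theorem no_relation_over {I : Type} [Finite I] {q : ℕ} {h : I → ℤ[X]} (hq : q ≠ 0)
    (hm : ∀ i, (h i).Monic) (hirr : ∀ i, Irreducible ((h i).map (Int.castRingHom ℚ)))
    (E : Type) [Field E] [NumberField E] [IsGalois ℚ E] (e : E →+* ℂ)
    (hpat : ∀ i, ∃ l : ℕ, l.Prime ∧ l ≠ 2 ∧ ¬ l ∣ q ∧ TrivFrob E l ∧ FlipPattern q h i l)
    (hss : ∀ i, ¬ (q : ℤ) ∣ (h i).nextCoeff ^ 2)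
    (ρ : ℂ) (hρ0 : ρ ≠ 0) (M : ℕ) (hM : 0 < M) (y₀ : E) (hy₀ : ρ ^ M = e y₀)
    (s : ℕ) (hs : 0 < s) {n : ℕ} (hn : 0 < n) (c : ℤ)
    (N : ℕ) (hN : 0 < N) (z : Fin n → ℂ) (hz : ∀ k, ∃ i, aeval (z k) (weil q (h i)) = 0)
    (hrel : ((∏ k, z k) ^ s * ρ) ^ N = (((q : ℂ) ^ s) ^ c) ^ N)
    (hno : ∀ k l, k ≠ l → z k * z l ≠ q) : False := by
  classical
  cases nonempty_fintype I
  obtain ⟨θ, hθ⟩ := Field.exists_primitive_element ℚ E
  -- the field
  let T : Finset ℂ := (Finset.univ.biUnion fun i =>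
    ((weil q (h i)).map (algebraMap ℤ ℂ)).roots.toFinset) ∪ {e θ}
  have hTint : ∀ y : T, IsIntegral ℚ (y : ℂ) := by
    rintro ⟨y, hy⟩
    rcases Finset.mem_union.1 hy with h1 | h1
    · obtain ⟨i, -, h2⟩ := Finset.mem_biUnion.1 h1
      have h3 := (mem_roots'.1 (Multiset.mem_toFinset.1 h2)).2
      rw [IsRoot.def, eval_map] at h3
      have h4 : IsIntegral ℤ y := ⟨weil q (h i), weil_monic q (hm i), h3⟩
      exact h4.tower_top
    · rw [Finset.mem_singleton] at h1
      subst h1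
      have h2 : IsIntegral ℚ θ := Algebra.IsIntegral.isIntegral θ
      obtain ⟨p, hp, hp0⟩ := h2
      refine ⟨p, hp, ?_⟩
      have h3 := Polynomial.hom_eval₂ p (algebraMap ℚ E) e θ
      rw [hp0, map_zero, RingHom.ext_rat (e.comp (algebraMap ℚ E)) (algebraMap ℚ ℂ)] at h3
      exact h3.symm
  obtain ⟨L, hL1, hL2, j, hj⟩ := exists_galois_of_rat (fun y : T => (y : ℂ)) hTint
  obtain ⟨ι, hι⟩ := exists_factor e j θ hθ (hj ⟨e θ, Finset.mem_union.2 (Or.inr (by simp))⟩)
  let _ : Algebra E L := ι.toAlgebra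
  have hL : ∀ i, ∀ z : ℂ, aeval z (weil q (h i)) = 0 → ∃ x : L, j x = z := by
    intro i z hz
    refine hj ⟨z, Finset.mem_union.2 (Or.inl (Finset.mem_biUnion.2 ⟨i, Finset.mem_univ _, ?_⟩))⟩
    rw [Multiset.mem_toFinset, mem_roots ((weil_monic q (hm i)).map _).ne_zero, IsRoot.def, eval_map]
    exact hz
  have hfl : ∀ i, ∀ α : L, aeval α (weil q (h i)) = 0 → FlippableOver q h E α := by
    intro i α hα
    obtain ⟨l, hl, hl2, hlq, hlE, hp⟩ := hpat i
    exact all_flippable_over hq hm L j hL E i (hirr i) hl hl2 hlq hlE hp α hα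
  have hdown : ∀ (f : ℤ[X]) (x : L), aeval (j x) f = 0 → aeval x f = 0 := by
    intro f x hx
    apply j.injective
    have h2 := Polynomial.hom_eval₂ f (algebraMap ℤ L) j x
    rw [RingHom.ext_int (j.comp (algebraMap ℤ L)) (algebraMap ℤ ℂ)] at h2
    rw [map_zero]
    exact h2.trans hx
  choose i hi using hz
  choose x hx using fun k => hL (i k) (z k) (hi k)
  have hxr : ∀ k, aeval (x k) (weil q (h (i k))) = 0 := fun k => hdown _ _ (by rw [hx]; exact hi k)
  have hx0 : ∀ k, x k ≠ 0 := fun k => root_ne_zero hq (hm (i k)) (hxr k)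
  have hqL : (q : L) ≠ 0 := by exact_mod_cast hq
  have hnoL : ∀ k l, x l ≠ q / x k := by
    intro k l hkl
    by_cases hk : k = l
    · subst hk
      obtain ⟨-, -, -, h2, -⟩ := hfl (i k) (x k) (hxr k)
      exact h2 hkl
    · apply hno k l hk
      have h3 := congrArg j hkl
      rw [map_div₀, map_natCast, hx, hx] at h3
      have hz0 : z k ≠ 0 := by
        rw [← hx k, Ne, map_eq_zero]
        exact hx0 k
      rw [h3]
      field_simp
  set y₁ : L := algebraMap E L y₀ with hy₁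
  have hjy : j y₁ = ρ ^ M := by
    rw [hy₀]
    exact hι y₀
  -- the relation
  have hrelL : ((∏ k, x k) ^ (s * M) * y₁) ^ N = (((q : L) ^ s) ^ c) ^ (N * M) := by
    apply j.injective
    rw [map_pow, map_mul, map_pow, map_prod, hjy, map_pow, map_zpow₀, map_pow, map_natCast,
      Finset.prod_congr rfl fun k _ => hx k]
    have h1 := congrArg (fun w => w ^ M) hrel
    beta_reduce at h1
    rw [← pow_mul, ← pow_mul] at h1
    rw [← h1, pow_mul (∏ k, z k), ← mul_pow, ← pow_mul, mul_comm M N]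
  -- the flip
  let k₀ : Fin n := ⟨0, hn⟩
  obtain ⟨σ₀, hσ0, hσ1, -, hσ3⟩ := hfl (i k₀) (x k₀) (hxr k₀)
  obtain ⟨a, ha, hprod⟩ : ∃ a : ℕ, 0 < a ∧ σ₀ (∏ k, x k) = (q / x k₀ ^ 2) ^ a * ∏ k, x k := by
    refine ⟨(Finset.univ.filter (fun k => x k = x k₀)).card, Finset.card_pos.2 ⟨k₀, by simp⟩, ?_⟩
    refine prod_flip x (x k₀) _ (σ₀ : L ≃+* L) ?_ ?_
    · change σ₀ (x k₀) = _
      rw [hσ1]
      have := hx0 k₀
      field_simp
    · intro k hk
      exact hσ3 (i k) (x k) (hxr k) hk (hnoL k₀ k)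
  have hPx : (∏ k, x k) ≠ 0 := Finset.prod_ne_zero_iff.2 fun k _ => hx0 k
  have hy₁0 : y₁ ≠ 0 := by
    intro h0
    rw [h0, map_zero] at hjy
    exact pow_ne_zero M hρ0 hjy.symm
  have h1 := congrArg σ₀ hrelL
  rw [map_pow, map_mul, map_pow, hprod, hy₁, hσ0, ← hy₁, map_pow, map_zpow₀, map_pow, map_natCast,
    ← hrelL] at h1
  have hPM : (∏ k, x k) ^ (s * M) ≠ 0 := pow_ne_zero _ hPx
  have h2 : ((q : L) / x k₀ ^ 2) ^ (a * (s * M) * N) = 1 := by
    have h3 : ((∏ k, x k) ^ (s * M) * y₁) ^ N ≠ 0 := pow_ne_zero _ (mul_ne_zero hPM hy₁0)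
    have h5 : (((q : L) / x k₀ ^ 2) ^ a) ^ (s * M) * ((∏ k, x k) ^ (s * M) * y₁) =
        (((q : L) / x k₀ ^ 2) ^ a * ∏ k, x k) ^ (s * M) * y₁ := by
      rw [mul_pow, mul_assoc]
    rw [← h5, mul_pow] at h1
    have h4 := mul_right_cancel₀ h3 (h1.trans (one_mul _).symm)
    rw [pow_mul, pow_mul]
    exact h4
  have ht : 0 < a * (s * M) * N := by positivity
  rw [div_pow, div_eq_one_iff_eq (pow_ne_zero _ (pow_ne_zero _ (hx0 k₀)))] at h2
  exact hss _ (dvd_of_root_of_unity hq hm L j hL (i k₀) (hirr _) (x k₀) (hxr k₀)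
    (a * (s * M) * N) ht h2.symm)

end Pool.Agent.W484.TB
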