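import Mathlib
import Pool.Agent.W484.TB.RankOver
import Pool.Agent.W484.TB.Bad
import Pool.Agent.W484.HS.Abs

/-!
# Products of eigenvalues of Frobenius and numbers of small rank over a number field
-/

set_option autoImplicit false

namespace Pool.Agent.W484.TB

open Polynomial Module Pool.Agent.W484.AA Pool.Agent.W484.BB Pool.Agent.W521.Frob
  Pool.Agent.W521.Count Pool.Agent.W521.Bad Pool.Agent.W521.Descent Pool.Agent.W521.Density
  Pool.Agent.W521.Criterion Pool.Agent.W484.HS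

/-- Up to powers, the numbers in the set `S` lie in a group generated by the nonzero elements of the
number field `E` and `r` numbers. -/
def RankLEOver (E : IntermediateField ℚ ℂ) (r : ℕ) (S : Set ℂ) : Prop :=
  ∃ u : Fin r → ℂ, (∀ j, u j ≠ 0) ∧ ∀ ρ ∈ S, ∃ (N : ℕ) (y : ℂ) (m : Fin r → ℤ), 0 < N ∧ y ∈ E ∧
    y ≠ 0 ∧ ρ ^ N = y * ∏ j, u j ^ m j

section closure

variable (E : IntermediateField ℚ ℂ) [FiniteDimensional ℚ E]

/-- The Galois closure. -/
noncomputable def gal : IntermediateField ℚ ℂ := IntermediateField.normalClosure ℚ E ℂ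

instance : FiniteDimensional ℚ (gal E) :=
  inferInstanceAs (FiniteDimensional ℚ (IntermediateField.normalClosure ℚ E ℂ))

instance : NumberField (gal E) where
  to_finiteDimensional := inferInstance

instance : IsGalois ℚ (gal E) where
  to_isSeparable := inferInstance
  to_normal := by
    have h : IsNormalClosure ℚ E (IntermediateField.normalClosure ℚ E ℂ) :=
      Algebra.IsAlgebraic.isNormalClosure_normalClosure
        fun x => IsAlgClosed.splits _
    exact h.normal

omit [FiniteDimensional ℚ E] in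
theorem le_gal : E ≤ gal E := by
  have h := E.val.fieldRange_le_normalClosure
  rw [IntermediateField.fieldRange_val] at h
  exact h

/-- The primes whose Frobenius elements in the Galois closure of `E` are trivial. -/
def splitPrimes : Set ℕ :=
  {l | TrivFrob (gal E) l}

theorem dense_splitPrimes : Dense (splitPrimes E) := split_count (gal E)

end closure

theorem zero_not_rank_over {E : IntermediateField ℚ ℂ} {r : ℕ} {S : Set ℂ}
    (h : RankLEOver E r S) : (0 : ℂ) ∉ S := by
  intro h0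
  obtain ⟨u, hu, h1⟩ := h
  obtain ⟨N, y, m, hN, hyE, hy0, h2⟩ := h1 0 h0
  rw [zero_pow hN.ne'] at h2
  exact mul_ne_zero hy0 (Finset.prod_ne_zero_iff.2 fun t _ => zpow_ne_zero _ (hu t)) h2.symm

/-- **The relations.** -/
theorem exactPair_over {I : Type} [Finite I] (g : I → ℕ) (E : IntermediateField ℚ ℂ)
    [FiniteDimensional ℚ E] {q : ℕ} (hq : q ≠ 0) (r : ℕ) (hr : ∀ i, r < g i)
    (x : (Σ i, Fin (g i)) → ℤ) (hx : GoodU (splitPrimes E) g q x)
    (s : ℕ) (hs : 0 < s) (χ : ℚ[X]) (hχ : χ ≠ 0)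
    (hrank : RankLEOver E r {ρ : ℂ | aeval ρ χ = 0}) (ρ : ℂ) (hρ : aeval ρ χ = 0) :
    ExactPair (fun z : {z : ℂ // ∃ i, aeval z (weil q (polys g x i)) = 0} => (z : ℂ) ^ s)
      ((q : ℂ) ^ s) ρ := by
  obtain ⟨hpat, hirr, hss⟩ := hx
  have hm : ∀ i, (polys g x i).Monic := fun i => mkPoly_monic (g i) _
  have hρ0 : ρ ≠ 0 := by
    rintro rfl
    exact zero_not_rank_over hrank hρ
  obtain ⟨u, hu0, hu⟩ := hrank
  intro n c N hN hn ys hlen hrel hpw
  let X := {z : ℂ // ∃ i, aeval z (weil q (polys g x i)) = 0}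
  refine no_relation_rank_over hq hm hirr (gal E) (algebraMap (gal E) ℂ) hpat hss r (fun i => by
      rw [show (polys g x i).natDegree = g i from mkPoly_natDegree (g i) _]
      exact hr i) χ hχ u hu0 (fun ρ hρ => ?_) ρ hρ hρ0 s hs hn c N hN
    (fun l => ((ys.get (Fin.cast hlen.symm l) : X) : ℂ))
    (fun l => (ys.get (Fin.cast hlen.symm l)).2) ?_ ?_
  · obtain ⟨N, y, m, hN, hyE, hy0, h2⟩ := hu ρ hρ
    refine ⟨N, ⟨y, le_gal E hyE⟩, m, hN, ?_, h2⟩
    intro h
    exact hy0 (congrArg Subtype.val h)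
  · rw [← hrel]
    congr 2
    have h6 : ∏ l : Fin n, ((ys.get (Fin.cast hlen.symm l) : X) : ℂ) =
        (ys.map (fun y : X => (y : ℂ))).prod := by
      have h61 : ∏ l : Fin n, ((ys.get (Fin.cast hlen.symm l) : X) : ℂ) =
          ∏ l : Fin ys.length, ((ys.get l : X) : ℂ) :=
        Fintype.prod_equiv (finCongr hlen.symm) _ _ fun l => rfl
      rw [h61, ← List.prod_ofFn]
      congr 1
      apply List.ext_getElem
      · simp
      · intro i h1 h2
        simp
    rw [h6]
    have h7 : ∀ ys : List X, (ys.map (fun y : X => (y : ℂ))).prod ^ s =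
        (ys.map (fun y : X => (y : ℂ) ^ s)).prod := by
      intro ys
      induction ys with
      | nil => simp
      | cons y ys ih =>
        rw [List.map_cons, List.prod_cons, mul_pow, ih, List.map_cons, List.prod_cons]
    exact h7 ys
  · have hbad : ∀ k' l' : Fin ys.length, k' < l' →
        ((ys.get k' : X) : ℂ) * ((ys.get l' : X) : ℂ) ≠ q := by
      intro k' l' hkl h8
      refine (List.pairwise_iff_get.1 hpw) k' l' hkl ?_
      change ((ys.get k' : X) : ℂ) ^ s * ((ys.get l' : X) : ℂ) ^ s = _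
      rw [← mul_pow, h8]
    intro k' l' hkl
    rcases lt_or_gt_of_ne hkl with h | h
    · exact hbad _ _ h
    · intro h8
      rw [mul_comm] at h8
      exact hbad _ _ h h8

/-- The relations for a field of characteristic zero. -/
theorem exactPair_field_over {I : Type} [Finite I] (g : I → ℕ) (E : IntermediateField ℚ ℂ)
    [FiniteDimensional ℚ E] {q : ℕ} (hq : q ≠ 0) (r : ℕ) (hr : ∀ i, r < g i)
    (x : (Σ i, Fin (g i)) → ℤ) (hx : GoodU (splitPrimes E) g q x)
    (s : ℕ) (hs : 0 < s) (χ : ℚ[X]) (hχ : χ ≠ 0)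
    (hrank : RankLEOver E r {ρ : ℂ | aeval ρ χ = 0})
    {K : Type*} [Field K] [CharZero K] (ρ : K) (hρ : aeval ρ χ = 0) :
    ExactPairK (fun z : {z : K // ∃ i, aeval z (weil q (polys g x i)) = 0} => (z : K) ^ s)
      ((q : K) ^ s) ρ := by
  classical
  have hmem : ∀ z : K, (∃ p : ℚ[X], p ≠ 0 ∧ aeval z p = 0) → z ∈ algebraicClosure ℚ K := by
    rintro z ⟨p, hp, hz⟩
    rw [mem_algebraicClosure_iff]
    exact ⟨p, hp, hz⟩
  have halg : Algebra.IsAlgebraic ℚ (algebraicClosure ℚ K) := algebraicClosure.isAlgebraic ℚ K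
  let j : algebraicClosure ℚ K →ₐ[ℚ] ℂ := IsAlgClosed.lift
  have hρm := hmem ρ ⟨χ, hχ, hρ⟩
  have hρj : aeval (j ⟨ρ, hρm⟩) χ = 0 := by
    rw [Polynomial.aeval_algHom_apply]
    have h1 : aeval (⟨ρ, hρm⟩ : algebraicClosure ℚ K) χ = 0 := by
      apply (algebraMap (algebraicClosure ℚ K) K).injective
      rw [← Polynomial.aeval_algebraMap_apply, map_zero]
      exact hρ
    rw [h1, map_zero]
  have h0 := exactPair_over g E hq r hr x hx s hs χ hχ hrank _ hρj
  have hzm : ∀ z : {z : K // ∃ i, aeval z (weil q (polys g x i)) = 0},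
      (z : K) ∈ algebraicClosure ℚ K := by
    rintro ⟨z, i, hi⟩
    refine hmem z ⟨(weil q (polys g x i)).map (algebraMap ℤ ℚ), ?_, ?_⟩
    · exact ((weil_monic q (mkPoly_monic (g i) (fun k => x ⟨i, k⟩))).map _).ne_zero
    · rw [aeval_map_algebraMap]
      exact hi
  have hz : ∀ z : {z : K // ∃ i, aeval z (weil q (polys g x i)) = 0},
      ∃ i, aeval (j ⟨z, hzm z⟩) (weil q (polys g x i)) = 0 := by
    rintro ⟨z, i, hi⟩
    refine ⟨i, ?_⟩
    have h2 := Polynomial.hom_eval₂ (weil q (polys g x i)) (algebraMap ℤ _)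
      (j : algebraicClosure ℚ K →+* ℂ) ⟨z, hzm ⟨z, i, hi⟩⟩
    rw [RingHom.ext_int ((j : algebraicClosure ℚ K →+* ℂ).comp (algebraMap ℤ _))
      (algebraMap ℤ ℂ)] at h2
    have h3 : eval₂ (algebraMap ℤ (algebraicClosure ℚ K)) (⟨z, hzm ⟨z, i, hi⟩⟩ :
        algebraicClosure ℚ K) (weil q (polys g x i)) = 0 := by
      apply (algebraMap (algebraicClosure ℚ K) K).injective
      rw [map_zero, Polynomial.hom_eval₂, RingHom.ext_int ((algebraMap (algebraicClosure ℚ K)
        K).comp (algebraMap ℤ _)) (algebraMap ℤ K)]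
      exact hi
    rw [h3, map_zero] at h2
    exact h2.symm
  intro n c N hN hn ys hlen hrel hpw
  let φ : {z : K // ∃ i, aeval z (weil q (polys g x i)) = 0} →
      {z : ℂ // ∃ i, aeval z (weil q (polys g x i)) = 0} := fun z => ⟨j ⟨z, hzm z⟩, hz z⟩
  have hrel0 : ((ys.map (fun z : {z : K // ∃ i, aeval z (weil q (polys g x i)) = 0} =>
      (⟨z, hzm z⟩ : algebraicClosure ℚ K) ^ s)).prod * ⟨ρ, hρm⟩) ^ N = (((q : algebraicClosure ℚ K) ^ s) ^ c) ^ N := by
    apply (algebraMap (algebraicClosure ℚ K) K).injective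
    rw [map_pow, map_mul, _root_.map_list_prod, List.map_map, map_pow, map_zpow₀, map_pow,
      map_natCast]
    exact hrel
  refine h0 n c N hN hn (ys.map φ) (by rw [List.length_map, hlen]) ?_ ?_
  · have h4 := congrArg j hrel0
    rw [map_pow, map_mul, _root_.map_list_prod j, List.map_map, map_pow, map_zpow₀, map_pow,
      map_natCast] at h4
    rw [List.map_map, ← h4]
    congr 4
    funext z
    change (j ⟨z, hzm z⟩) ^ s = j (⟨z, hzm z⟩ ^ s)
    rw [map_pow]
  · rw [List.pairwise_map]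
    refine hpw.imp ?_
    intro a b hab h5
    apply hab
    change (j ⟨a, hzm a⟩) ^ s * (j ⟨b, hzm b⟩) ^ s = (q : ℂ) ^ s at h5
    have h6 : (⟨a, hzm a⟩ : algebraicClosure ℚ K) ^ s * ⟨b, hzm b⟩ ^ s =
        (q : algebraicClosure ℚ K) ^ s := by
      apply (j : algebraicClosure ℚ K →+* ℂ).injective
      rw [map_mul, map_pow, map_pow, map_pow, map_natCast]
      exact h5
    have h7 := congrArg (algebraMap (algebraicClosure ℚ K) K) h6
    rw [map_mul, map_pow, map_pow, map_pow, map_natCast] at h7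
    exact h7


/-- `G` is injective, and its eigenvalues and all their conjugates over `ℚ` lie, up to powers, in a
group generated by the nonzero elements of the number field `E` and `r` numbers. -/
def SmallRankOver {H : Type} [AddCommGroup H] [Module ℂ H] (E : IntermediateField ℚ ℂ) (r : ℕ)
    (G : H →ₗ[ℂ] H) : Prop :=
  ∃ χ : ℚ[X], χ ≠ 0 ∧ (∀ ρ, Module.End.HasEigenvalue G ρ → aeval ρ χ = 0) ∧
    RankLEOver E r {ρ : ℂ | aeval ρ χ = 0}

/-- The formula for all products of powers of abelian varieties with characteristic polynomials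
`f i`, all extensions, and all `H` of rank at most `r` over `E`. -/
def TateForRankOver {I : Type} (E : IntermediateField ℚ ℂ) (q r : ℕ) (f : I → ℤ[X]) : Prop :=
  ∀ (V : Type) [AddCommGroup V] [Module ℂ V] [FiniteDimensional ℂ V] (F : V →ₗ[ℂ] V),
    Submodule.span ℂ {v : V | ∃ i, ∃ z : ℂ, aeval z (f i) = 0 ∧ F v = z • v} = ⊤ →
    ∀ s : ℕ, 0 < s →
    ∀ (H : Type) [AddCommGroup H] [Module ℂ H] [FiniteDimensional ℂ H] (G : H →ₗ[ℂ] H),
      SmallRankOver E r G → TateSplits ((q : ℂ) ^ s) (F ^ s) G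

theorem tateForRankOver_of_good {I : Type} [Finite I] (g : I → ℕ) (E : IntermediateField ℚ ℂ)
    [FiniteDimensional ℚ E] {q : ℕ} (hq : q ≠ 0) (r : ℕ) (hr : ∀ i, r < g i)
    (x : (Σ i, Fin (g i)) → ℤ) (hx : GoodU (splitPrimes E) g q x) :
    TateForRankOver E q r (fun i => weil q (polys g x i)) := by
  intro V _ _ _ F hF s hs H _ _ _ G hG n c N hN u hu
  have hQ : (q : ℂ) ^ s ≠ 0 := pow_ne_zero _ (by exact_mod_cast hq)
  obtain ⟨χ, hχ, hχe, hrank⟩ := hG
  exact mem_mixedProducts (F ^ s) _ (span_pow F hF s) ((q : ℂ) ^ s) hQ G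
    (fun ρ hρ => exactPair_over g E hq r hr x hx s hs χ hχ hrank ρ (hχe ρ hρ)) n c N hN u hu

/-- The semisimplicity for all products of powers of abelian varieties with characteristic
polynomials `f i`, all extensions, and all `H` of rank at most `r` over `E`. -/
def SemisimpleForRankOver {I : Type} (E : IntermediateField ℚ ℂ) (q r : ℕ) (f : I → ℤ[X]) : Prop :=
  ∀ (V : Type) [AddCommGroup V] [Module ℂ V] [FiniteDimensional ℂ V] (F : V →ₗ[ℂ] V),
    Submodule.span ℂ {v : V | ∃ i, ∃ z : ℂ, aeval z (f i) = 0 ∧ F v = z • v} = ⊤ →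
    ∀ s : ℕ, 0 < s →
    ∀ (H : Type) [AddCommGroup H] [Module ℂ H] [FiniteDimensional ℂ H] (G : H →ₗ[ℂ] H),
      SmallRankOver E r G → SemisimpleSplits ((q : ℂ) ^ s) (F ^ s) G

theorem semisimpleForRankOver_of_good {I : Type} [Finite I] (g : I → ℕ)
    (E : IntermediateField ℚ ℂ) [FiniteDimensional ℚ E] {q : ℕ} (hq : q ≠ 0) (r : ℕ)
    (hr : ∀ i, r < g i) (x : (Σ i, Fin (g i)) → ℤ) (hx : GoodU (splitPrimes E) g q x) :
    SemisimpleForRankOver E q r (fun i => weil q (polys g x i)) := by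
  intro V _ _ _ F hF s hs H _ _ _ G hG n c hss
  have hQ : (q : ℂ) ^ s ≠ 0 := pow_ne_zero _ (by exact_mod_cast hq)
  obtain ⟨χ, hχ, hχe, hrank⟩ := hG
  exact semisimpleAt_product (F ^ s) _ (span_pow F hF s) ((q : ℂ) ^ s) hQ G
    (fun ρ hρ => exactPair_over g E hq r hr x hx s hs χ hχ hrank ρ (hχe ρ hρ)) n c hss

end Pool.Agent.W484.TB
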