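import Mathlib
import Pool.Agent.W484.TB.Pair
import Pool.Agent.H194R3.Weil.Ext

/-!
# Generalized Tate classes on products
-/

set_option autoImplicit false
set_option linter.unusedSectionVars false

namespace Pool.Agent.W484.TB

open Polynomial Module Pool.Agent.W484.AA Pool.Agent.W484.BB Pool.Agent.W521.Frob
  Pool.Agent.W521.Count Pool.Agent.W521.Bad Pool.Agent.W521.Descent Pool.Agent.W521.Density
  Pool.Agent.W521.Criterion ExteriorAlgebra TensorProduct
  Pool.Agent.H194R3.Weil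

section general

variable {V : Type*} [AddCommGroup V] [Module ℂ V] {H : Type*} [AddCommGroup H] [Module ℂ H]

/-- `y` is a class of degree two on which Frobenius acts as multiplication by `Q`. By the theorem of
Tate: a linear combination of classes of divisors over the field with `Q` elements. -/
def IsRationalDivisorClass (F : V →ₗ[ℂ] V) (Q : ℂ) (y : ExteriorAlgebra ℂ V) : Prop :=
  y ∈ ⋀[ℂ]^2 V ∧ ExteriorAlgebra.map F y = Q • y

/-- `(T ^ N - μ) ^ m` kills `x`. -/
def Killed {M : Type*} [AddCommGroup M] [Module ℂ M] (T : M →ₗ[ℂ] M) (N m : ℕ) (μ : ℂ) (x : M) :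
    Prop :=
  x ∈ Module.End.genEigenspace (T ^ N) μ m

/-- The span of the products `Z 0 * ... * Z (k - 1) ⊗ h` with `n = 2 k`, divisor classes `Z l` and
`h` killed by `(G ^ N - Q ^ ((c - k) N)) ^ m`: it is zero if `n` is odd. -/
def genProducts (F : V →ₗ[ℂ] V) (G : H →ₗ[ℂ] H) (Q : ℂ) (n : ℕ) (c : ℤ) (N m : ℕ) :
    Submodule ℂ (ExteriorAlgebra ℂ V ⊗[ℂ] H) :=
  Submodule.span ℂ {t | ∃ (k : ℕ) (Z : Fin k → ExteriorAlgebra ℂ V) (h : H),
    n = 2 * k ∧ (∀ l, IsRationalDivisorClass F Q (Z l)) ∧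
    Killed G N m ((Q ^ (c - k)) ^ N) h ∧ t = (List.ofFn Z).prod ⊗ₜ h}

/-- The span of the products of `k` divisor classes. -/
def ratSpan (F : V →ₗ[ℂ] V) (Q : ℂ) (k : ℕ) : Submodule ℂ (ExteriorAlgebra ℂ V) :=
  Submodule.span ℂ {t | ∃ Z : Fin k → ExteriorAlgebra ℂ V,
    (∀ l, IsRationalDivisorClass F Q (Z l)) ∧ t = (List.ofFn Z).prod}

theorem mul_mem_ratSpan (F : V →ₗ[ℂ] V) (Q : ℂ) (k : ℕ) (D : ExteriorAlgebra ℂ V)
    (hD : IsRationalDivisorClass F Q D) (t : ExteriorAlgebra ℂ V) (ht : t ∈ ratSpan F Q k) :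
    D * t ∈ ratSpan F Q (k + 1) := by
  have h : ratSpan F Q k ≤ (ratSpan F Q (k + 1)).comap (LinearMap.mulLeft ℂ D) := by
    refine Submodule.span_le.2 ?_
    rintro _ ⟨Z, hZ, rfl⟩
    refine Submodule.subset_span ⟨Fin.cons D Z, ?_, ?_⟩
    · intro l
      refine Fin.cases ?_ (fun l => ?_) l
      · exact hD
      · exact hZ l
    · rw [LinearMap.mulLeft_apply, List.ofFn_cons, List.prod_cons]
  exact h ht

theorem tmul_mem_gen (F : V →ₗ[ℂ] V) (G : H →ₗ[ℂ] H) (Q : ℂ) (n : ℕ) (c : ℤ) (N m : ℕ) (k : ℕ)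
    (hn : n = 2 * k) (h : H)
    (hh : Killed G N m ((Q ^ (c - k)) ^ N) h) (x : ExteriorAlgebra ℂ V)
    (hx : x ∈ ratSpan F Q k) : x ⊗ₜ[ℂ] h ∈ genProducts F G Q n c N m := by
  have h' : ratSpan F Q k ≤ (genProducts F G Q n c N m).comap
      ((TensorProduct.mk ℂ (ExteriorAlgebra ℂ V) H).flip h) := by
    refine Submodule.span_le.2 ?_
    rintro _ ⟨Z, hZ, rfl⟩
    exact Submodule.subset_span ⟨k, Z, h, hn, hZ, hh, rfl⟩
  exact h' hx

theorem list_exact' {X : Type*} (F : V →ₗ[ℂ] V) (val : X → ℂ) (Q ρ : ℂ) (hQ : Q ≠ 0)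
    (hpair : ExactPair val Q ρ) :
    ∀ (n : ℕ) (c : ℤ) (s : ℕ), 0 < s → ∀ L : List (V × X), L.length = n →
      (∀ e ∈ L, F e.1 = val e.2 • e.1) →
      ((L.map (fun e => val e.2)).prod * ρ) ^ s = (Q ^ c) ^ s →
      ∃ k : ℕ, n = 2 * k ∧ (L.map (fun e => val e.2)).prod = Q ^ k ∧
        (L.map (fun e => ι ℂ e.1)).prod ∈ ratSpan F Q k := by
  intro n
  induction n using Nat.strong_induction_on with
  | _ n ih =>
    intro c s hs L hlen hL hrel
    rcases Nat.eq_zero_or_pos n with hn | hn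
    · subst hn
      have hL0 : L = [] := List.length_eq_zero_iff.1 hlen
      subst hL0
      exact ⟨0, rfl, by simp, Submodule.subset_span ⟨Fin.elim0, fun l => l.elim0, by simp⟩⟩
    · have h1 := hpair n c s hs hn (L.map Prod.snd) (by rw [List.length_map, hlen]) (by
        rw [List.map_map]
        exact hrel)
      rw [List.pairwise_map] at h1
      obtain ⟨e, e', L', hperm, hgood⟩ := exists_of_not_pairwise _ L h1
      rw [not_not] at hgood
      have heL : e ∈ L := hperm.mem_iff.2 (by simp)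
      have heL' : e' ∈ L := hperm.mem_iff.2 (by simp)
      have hlen' : n = L'.length + 2 := by
        have h2 := hperm.length_eq
        rw [List.length_cons, List.length_cons, hlen] at h2
        omega
      obtain ⟨b', hb'⟩ := prod_perm (K := ℂ) hperm
      have h3 : (L.map (fun e => val e.2)).prod = Q * (L'.map (fun e => val e.2)).prod := by
        rw [(hperm.map (fun e => val e.2)).prod_eq, List.map_cons, List.prod_cons,
          List.map_cons, List.prod_cons, ← mul_assoc, hgood]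
      obtain ⟨k, h2, h4, h5⟩ := ih L'.length (by omega) (c - 1) s hs L' rfl
        (fun e₁ he₁ => hL e₁ (hperm.mem_iff.2
          (List.mem_cons_of_mem _ (List.mem_cons_of_mem _ he₁)))) (by
        have h6 : Q ^ c = Q * Q ^ (c - 1) := by
          rw [← zpow_one_add₀ hQ]
          congr 1
          ring
        rw [h3, h6, mul_assoc, mul_pow, mul_pow Q] at hrel
        exact mul_left_cancel₀ (pow_ne_zero _ hQ) hrel)
      refine ⟨k + 1, by omega, by rw [h3, h4, pow_succ'], ?_⟩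
      rw [hb']
      refine Submodule.smul_mem _ _ ?_
      rw [List.map_cons, List.prod_cons, List.map_cons, List.prod_cons, ← mul_assoc]
      refine mul_mem_ratSpan F _ k _ ⟨?_, ?_⟩ _ h5
      · rw [exteriorPower, pow_two]
        exact Submodule.mul_mem_mul (LinearMap.mem_range_self _ _) (LinearMap.mem_range_self _ _)
      · rw [map_mul, ExteriorAlgebra.map_apply_ι, ExteriorAlgebra.map_apply_ι, hL e heL,
          hL e' heL', map_smul, map_smul, smul_mul_smul_comm, hgood]

theorem killed_iff {M : Type*} [AddCommGroup M] [Module ℂ M] (T : M →ₗ[ℂ] M) (N m : ℕ) (μ : ℂ)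
    (x : M) : Killed T N m μ x ↔ ((T ^ N - μ • (1 : Module.End ℂ M)) ^ m) x = 0 := by
  unfold Killed
  rw [Module.End.mem_genEigenspace_nat, LinearMap.mem_ker]

/-- The components of a generalized eigenvector of a power. -/
theorem components_pow {U : Type*} [AddCommGroup U] [Module ℂ U] {r : ℕ}
    (T : U →ₗ[ℂ] U) (G : H →ₗ[ℂ] H) (c : Fin r → ℂ) (e : (U ⊗[ℂ] H) ≃ₗ[ℂ] (Fin r →₀ H))
    (he : ∀ u j, e (TensorProduct.map T G u) j = c j • G (e u j)) (N m : ℕ) (μ : ℂ)
    (u : U ⊗[ℂ] H) (hu : Killed (TensorProduct.map T G) N m μ u) (j : Fin r) :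
    ((c j ^ N • G ^ N - μ • (1 : Module.End ℂ H)) ^ m) (e u j) = 0 := by
  have h1 : ∀ (N : ℕ) (u : U ⊗[ℂ] H), e ((TensorProduct.map T G ^ N) u) j =
      c j ^ N • (G ^ N) (e u j) := by
    intro N
    induction N with
    | zero => intro u; simp
    | succ N ih =>
      intro u
      rw [pow_succ, Module.End.mul_apply, ih, he, pow_succ, pow_succ, map_smul, smul_smul,
        Module.End.mul_apply]
  have h2 : ∀ (m : ℕ) (u : U ⊗[ℂ] H),
      e (((TensorProduct.map T G ^ N - μ • (1 : Module.End ℂ (U ⊗[ℂ] H))) ^ m) u) j =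
        ((c j ^ N • G ^ N - μ • (1 : Module.End ℂ H)) ^ m) (e u j) := by
    intro m
    induction m with
    | zero => intro u; simp
    | succ m ih =>
      intro u
      rw [pow_succ, pow_succ, Module.End.mul_apply, Module.End.mul_apply, ih]
      congr 1
      rw [LinearMap.sub_apply, map_sub, Finsupp.sub_apply, h1, LinearMap.sub_apply,
        LinearMap.smul_apply, LinearMap.smul_apply, LinearMap.smul_apply, map_smul,
        Finsupp.smul_apply, Module.End.one_apply, Module.End.one_apply]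
  rw [killed_iff] at hu
  rw [← h2, hu, map_zero, Finsupp.zero_apply]

theorem killed_of_scalar (G : H →ₗ[ℂ] H) (a μ : ℂ) (ha : a ≠ 0) (N m : ℕ) (h : H)
    (hh : ((a • G ^ N - μ • (1 : Module.End ℂ H)) ^ m) h = 0) : Killed G N m (μ / a) h := by
  have h1 : a • G ^ N - μ • (1 : Module.End ℂ H) = a • (G ^ N - (μ / a) • (1 : Module.End ℂ H)) := by
    rw [smul_sub, smul_smul, mul_div_cancel₀ _ ha]
  rw [h1, _root_.smul_pow, LinearMap.smul_apply] at hh
  rw [killed_iff]
  exact (smul_eq_zero.1 hh).resolve_left (pow_ne_zero _ ha)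

/-- A generalized eigenvector which is not zero yields an eigenvalue. -/
theorem hasEigenvalue_of_killed (G : H →ₗ[ℂ] H) (μ : ℂ) (N m : ℕ) (h : H) (h0 : h ≠ 0)
    (hh : Killed G N m μ h) : Module.End.HasEigenvalue (G ^ N) μ := by
  have h1 : Module.End.HasUnifEigenvalue (G ^ N) μ m := by
    intro hbot
    unfold Killed at hh
    rw [hbot] at hh
    exact h0 ((Submodule.mem_bot ℂ).1 hh)
  exact h1.lt zero_lt_one

theorem basis_components {U : Type*} [AddCommGroup U] [Module ℂ U] {r : ℕ}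
    (T : U →ₗ[ℂ] U) (G : H →ₗ[ℂ] H) (b : Basis (Fin r) ℂ U) (c : Fin r → ℂ)
    (hb : ∀ j, T (b j) = c j • b j) (u : U ⊗[ℂ] H) (j : Fin r) :
    TensorProduct.equivFinsuppOfBasisLeft (N := H) b (TensorProduct.map T G u) j =
      c j • G (TensorProduct.equivFinsuppOfBasisLeft (N := H) b u j) := by
  classical
  have hT : ∀ x, b.repr (T x) j = c j * b.repr x j := by
    intro x
    have h1 : b.coord j ∘ₗ T = c j • b.coord j := by
      refine b.ext fun i => ?_
      rw [LinearMap.comp_apply, hb, map_smul, LinearMap.smul_apply, Basis.coord_apply,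
        Basis.repr_self, Finsupp.single_apply]
      split_ifs with h
      · rw [h]
      · rw [smul_zero, smul_zero]
    exact LinearMap.congr_fun h1 x
  induction u using TensorProduct.induction_on with
  | zero => simp
  | tmul x y =>
    rw [TensorProduct.map_tmul, TensorProduct.equivFinsuppOfBasisLeft_apply_tmul_apply,
      TensorProduct.equivFinsuppOfBasisLeft_apply_tmul_apply, hT, map_smul, smul_smul]
  | add x y hx hy =>
    rw [map_add, map_add, map_add, Finsupp.add_apply, Finsupp.add_apply, hx, hy, map_add, smul_add]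

theorem sum_components {U : Type*} [AddCommGroup U] [Module ℂ U] {r : ℕ}
    (b : Basis (Fin r) ℂ U) (u : U ⊗[ℂ] H) :
    u = ∑ j, b j ⊗ₜ[ℂ] (TensorProduct.equivFinsuppOfBasisLeft (N := H) b u j) := by
  classical
  have h := TensorProduct.equivFinsuppOfBasisLeft_symm_apply (N := H) b
    (TensorProduct.equivFinsuppOfBasisLeft (N := H) b u)
  rw [LinearEquiv.symm_apply_apply, Finsupp.sum_fintype _ _ (fun i => by simp)] at h
  exact h

/-- **Generalized Tate classes on the product.** -/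
theorem mem_genProducts {X : Type*} [FiniteDimensional ℂ V] [FiniteDimensional ℂ H]
    (F : V →ₗ[ℂ] V) (val : X → ℂ) (hF : Submodule.span ℂ {v : V | ∃ x, F v = val x • v} = ⊤)
    (Q : ℂ) (hQ : Q ≠ 0) (G : H →ₗ[ℂ] H)
    (hG : ∀ ρ, Module.End.HasEigenvalue G ρ → ExactPair val Q ρ)
    (n : ℕ) (c : ℤ) (N : ℕ) (hN : 0 < N) (m : ℕ) (u : (⋀[ℂ]^n V) ⊗[ℂ] H)
    (hu : Killed (M := (⋀[ℂ]^n V) ⊗[ℂ] H) (TensorProduct.map (exteriorPower.map n F) G) N m
      ((Q ^ c) ^ N) u) :
    incl V H n u ∈ genProducts F G Q n c N m := by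
  classical
  obtain ⟨r, b', α, hα, hb'⟩ := exists_eigenbasis_list F val hF n
  set e := TensorProduct.equivFinsuppOfBasisLeft (N := H) b' with he_def
  have he : ∀ (u : (⋀[ℂ]^n V) ⊗[ℂ] H) j,
      e (TensorProduct.map (exteriorPower.map n F) G u) j = α j • G (e u j) :=
    fun u j => basis_components (exteriorPower.map n F) G b' α hb' u j
  have h1 := fun j => components_pow (exteriorPower.map n F) G α e he N m _ u hu j
  have h2 : u = ∑ j, b' j ⊗ₜ[ℂ] e u j := sum_components b' u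
  rw [h2, map_sum]
  refine Submodule.sum_mem _ fun j _ => ?_
  have h5 : incl V H n (b' j ⊗ₜ e u j) = (b' j : ExteriorAlgebra ℂ V) ⊗ₜ e u j := by
    rw [incl, TensorProduct.map_tmul]
    rfl
  rw [h5]
  by_cases hj : e u j = 0
  · rw [hj, TensorProduct.tmul_zero]
    exact Submodule.zero_mem _
  have hQc : (Q ^ c) ^ N ≠ 0 := pow_ne_zero _ (zpow_ne_zero _ hQ)
  have hα0 : α j ^ N ≠ 0 := by
    intro h0
    have h3 := h1 j
    rw [h0, zero_smul, zero_sub, ← neg_smul, _root_.smul_pow, one_pow, LinearMap.smul_apply,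
      Module.End.one_apply] at h3
    exact (smul_ne_zero (pow_ne_zero _ (neg_ne_zero.2 hQc)) hj) h3
  have hk := killed_of_scalar G _ _ hα0 N m _ (h1 j)
  have h4 : (Q ^ c) ^ N / α j ^ N ∈ spectrum ℂ (G ^ N) :=
    Module.End.hasEigenvalue_iff_mem_spectrum.1 (hasEigenvalue_of_killed G _ N m _ hj hk)
  rw [spectrum.map_pow_of_pos G hN] at h4
  obtain ⟨ρ, hρ, hρs⟩ := h4
  have hρe : Module.End.HasEigenvalue G ρ := Module.End.hasEigenvalue_iff_mem_spectrum.2 hρ
  have hpair := hG ρ hρe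
  have hρs : ρ ^ N = (Q ^ c) ^ N / α j ^ N := hρs
  have hrel : (α j * ρ) ^ N = (Q ^ c) ^ N := by
    rw [mul_pow, hρs, mul_div_cancel₀ _ hα0]
  have hlist := list_exact' (V := V) F val Q ρ hQ hpair n c N hN
  obtain ⟨L, hL, hLα⟩ := hα j
  obtain ⟨k, hk, hkα, _⟩ := hlist (L.map (fun x => ((0 : V), x)))
    (by rw [List.length_map, hL])
    (by
      intro e he
      rw [List.mem_map] at he
      obtain ⟨x, _, rfl⟩ := he
      rw [map_zero, smul_zero]) (by
      rw [List.map_map]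
      have h6 : ((fun e : V × X => val e.2) ∘ fun x => ((0 : V), x)) = val := rfl
      rw [h6, ← hLα]
      exact hrel)
  have hαk : α j = Q ^ k := by
    rw [← hkα, List.map_map, hLα]
    rfl
  refine tmul_mem_gen F G Q n c N m k hk _ ?_ _ ?_
  · have h6 : (Q ^ (c - (k : ℤ))) ^ N = (Q ^ c) ^ N / α j ^ N := by
      rw [hαk, zpow_sub₀ hQ, zpow_natCast, div_pow]
    rw [h6]
    assumption
  · have h6 : ExteriorAlgebra.map F (b' j : ExteriorAlgebra ℂ V) = α j • (b' j :
        ExteriorAlgebra ℂ V) := by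
      rw [← Pool.Agent.W484.BB.coe_map, hb' j]
      rfl
    refine mem_of_lists_sub F val hF n 1 (α j) _ ?_ _ (b' j).2 (by
      rw [pow_one]
      exact h6)
    intro L hlen hL hLα
    rw [pow_one] at hLα
    obtain ⟨k', hk', -, h7⟩ := hlist L hlen hL (by rw [hLα]; exact hrel)
    have h8 : k' = k := by omega
    rw [← h8]
    exact h7

theorem map_prod_rat (F : V →ₗ[ℂ] V) (Q : ℂ) (k : ℕ) (Z : Fin k → ExteriorAlgebra ℂ V)
    (hZ : ∀ l, IsRationalDivisorClass F Q (Z l)) :
    ExteriorAlgebra.map F (List.ofFn Z).prod = Q ^ k • (List.ofFn Z).prod := by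
  induction k with
  | zero => simp
  | succ k ih =>
    rw [List.ofFn_succ, List.prod_cons, map_mul, (hZ 0).2, ih _ fun l => hZ l.succ,
      smul_mul_smul_comm, pow_succ']

theorem killed_tmul (F : V →ₗ[ℂ] V) (G : H →ₗ[ℂ] H) (Q : ℂ) (hQ : Q ≠ 0) (c : ℤ) (N m k : ℕ)
    (x : ExteriorAlgebra ℂ V) (hx : ExteriorAlgebra.map F x = Q ^ k • x) (h : H)
    (hh : Killed G N m ((Q ^ (c - k)) ^ N) h) :
    Killed (TensorProduct.map (ExteriorAlgebra.map F).toLinearMap G) N m ((Q ^ c) ^ N)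
      (x ⊗ₜ[ℂ] h) := by
  have hQc : (Q ^ c) ^ N = (Q ^ k) ^ N * (Q ^ (c - (k : ℤ))) ^ N := by
    rw [← mul_pow]
    congr 1
    rw [← zpow_natCast, ← zpow_add₀ hQ]
    congr 1
    ring
  have h1 : ∀ (N : ℕ) (h : H),
      ((TensorProduct.map (ExteriorAlgebra.map F).toLinearMap G) ^ N) (x ⊗ₜ[ℂ] h) =
        x ⊗ₜ[ℂ] ((Q ^ k) ^ N • (G ^ N) h) := by
    intro N
    induction N with
    | zero => intro h; simp
    | succ N ih =>
      intro h
      rw [pow_succ, Module.End.mul_apply, TensorProduct.map_tmul, AlgHom.toLinearMap_apply, hx,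
        ← TensorProduct.smul_tmul', map_smul, ih, pow_succ, pow_succ, Module.End.mul_apply,
        ← TensorProduct.tmul_smul, smul_smul, mul_comm]
  rw [killed_iff] at hh ⊢
  have h2 : ∀ (m : ℕ) (h : H),
      ((TensorProduct.map (ExteriorAlgebra.map F).toLinearMap G ^ N -
        (Q ^ c) ^ N • (1 : Module.End ℂ (ExteriorAlgebra ℂ V ⊗[ℂ] H))) ^ m) (x ⊗ₜ[ℂ] h) =
      x ⊗ₜ[ℂ] (((Q ^ k) ^ N) ^ m •
        ((G ^ N - (Q ^ (c - (k : ℤ))) ^ N • (1 : Module.End ℂ H)) ^ m) h) := by
    intro m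
    induction m with
    | zero => intro h; simp
    | succ m ih =>
      intro h
      rw [pow_succ, Module.End.mul_apply, LinearMap.sub_apply, h1, LinearMap.smul_apply,
        Module.End.one_apply, ← TensorProduct.tmul_smul, ← TensorProduct.tmul_sub, ih, hQc,
        mul_smul, ← smul_sub, map_smul, smul_smul, ← pow_succ, pow_succ (_ - _),
        Module.End.mul_apply, LinearMap.sub_apply, LinearMap.smul_apply, Module.End.one_apply]
  rw [h2, hh, smul_zero, TensorProduct.tmul_zero]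

theorem killed_of_injective {M M' : Type*} [AddCommGroup M] [Module ℂ M] [AddCommGroup M']
    [Module ℂ M'] (T : M →ₗ[ℂ] M) (T' : M' →ₗ[ℂ] M') (i : M →ₗ[ℂ] M')
    (hi : Function.Injective i) (h3 : ∀ v, i (T v) = T' (i v)) (N m : ℕ) (μ : ℂ) (u : M)
    (h1 : Killed T' N m μ (i u)) : Killed T N m μ u := by
  have h4 : ∀ (N : ℕ) (v : M), i ((T ^ N) v) = (T' ^ N) (i v) := by
    intro N
    induction N with
    | zero => intro v; simp
    | succ N ih => intro v; rw [pow_succ, pow_succ, Module.End.mul_apply, ih, h3,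
        Module.End.mul_apply]
  rw [killed_iff] at h1 ⊢
  apply hi
  rw [map_zero, ← h1]
  have h5 : ∀ (m : ℕ) (v : M), i (((T ^ N - μ • (1 : Module.End ℂ M)) ^ m) v) =
      ((T' ^ N - μ • (1 : Module.End ℂ M')) ^ m) (i v) := by
    intro m
    induction m with
    | zero => intro v; simp
    | succ m ih =>
      intro v
      rw [pow_succ, pow_succ, Module.End.mul_apply, Module.End.mul_apply, ih]
      congr 1
      rw [LinearMap.sub_apply, LinearMap.sub_apply, map_sub, h4, LinearMap.smul_apply,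
        LinearMap.smul_apply, map_smul, Module.End.one_apply, Module.End.one_apply]
  exact h5 m u

theorem killed_of_mem (F : V →ₗ[ℂ] V) (G : H →ₗ[ℂ] H) (Q : ℂ) (hQ : Q ≠ 0)
    (n : ℕ) (c : ℤ) (N m : ℕ) (u : (⋀[ℂ]^n V) ⊗[ℂ] H)
    (hu : incl V H n u ∈ genProducts F G Q n c N m) :
    Killed (M := (⋀[ℂ]^n V) ⊗[ℂ] H) (TensorProduct.map (exteriorPower.map n F) G) N m
      ((Q ^ c) ^ N) u := by
  have h1 : Killed (TensorProduct.map (ExteriorAlgebra.map F).toLinearMap G) N m ((Q ^ c) ^ N)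
      (incl V H n u) := by
    have h2 : genProducts F G Q n c N m ≤ Module.End.genEigenspace
        ((TensorProduct.map (ExteriorAlgebra.map F).toLinearMap G) ^ N) ((Q ^ c) ^ N) m := by
      refine Submodule.span_le.2 ?_
      rintro _ ⟨k, Z, h, -, hZ, hh, rfl⟩
      exact killed_tmul F G Q hQ c N m k _ (map_prod_rat F Q k Z hZ) h hh
    exact h2 hu
  have h3 : ∀ v : (⋀[ℂ]^n V) ⊗[ℂ] H,
      incl V H n (TensorProduct.map (exteriorPower.map n F) G v) =
        TensorProduct.map (ExteriorAlgebra.map F).toLinearMap G (incl V H n v) := by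
    intro v
    induction v using TensorProduct.induction_on with
    | zero => simp
    | tmul x y =>
      rw [TensorProduct.map_tmul, incl, TensorProduct.map_tmul, TensorProduct.map_tmul,
        TensorProduct.map_tmul]
      congr 1
      exact coe_map F n x
    | add x y hx hy => rw [map_add, map_add, map_add, map_add, hx, hy]
  exact killed_of_injective (M := (⋀[ℂ]^n V) ⊗[ℂ] H) _ _ (incl V H n) (incl_injective n) h3 N m
    _ u h1

end general

/-- For all `n`, `c`, `N`, `m`: a class in `⋀ ^ n V ⊗ H` is killed by `(Φ ^ N - Q ^ (c N)) ^ m`,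
`Φ = ⋀ ^ n F ⊗ G` the Frobenius, if and only if it is a linear combination of products of
`k = n / 2` divisor classes and a class in `H` killed by `(G ^ N - Q ^ ((c - k) N)) ^ m`. -/
def GenTateSplits {V : Type} [AddCommGroup V] [Module ℂ V] {H : Type} [AddCommGroup H] [Module ℂ H]
    (Q : ℂ) (F : V →ₗ[ℂ] V) (G : H →ₗ[ℂ] H) : Prop :=
  ∀ (n : ℕ) (c : ℤ) (N m : ℕ), 0 < N → ∀ u : (⋀[ℂ]^n V) ⊗[ℂ] H,
    Killed (M := (⋀[ℂ]^n V) ⊗[ℂ] H) (TensorProduct.map (exteriorPower.map n F) G) N m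
      ((Q ^ c) ^ N) u ↔ incl V H n u ∈ genProducts F G Q n c N m

/-- The splitting for all products of powers of abelian varieties with characteristic polynomials
`f i`, all extensions, and all `H` of rank at most `r` over `E`. -/
def GenTateForRankOver {I : Type} (E : IntermediateField ℚ ℂ) (q r : ℕ) (f : I → ℤ[X]) : Prop :=
  ∀ (V : Type) [AddCommGroup V] [Module ℂ V] [FiniteDimensional ℂ V] (F : V →ₗ[ℂ] V),
    Submodule.span ℂ {v : V | ∃ i, ∃ z : ℂ, aeval z (f i) = 0 ∧ F v = z • v} = ⊤ →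
    ∀ s : ℕ, 0 < s →
    ∀ (H : Type) [AddCommGroup H] [Module ℂ H] [FiniteDimensional ℂ H] (G : H →ₗ[ℂ] H),
      SmallRankOver E r G → GenTateSplits ((q : ℂ) ^ s) (F ^ s) G

theorem genTateForRankOver_of_good {I : Type} [Finite I] (g : I → ℕ) (E : IntermediateField ℚ ℂ)
    [FiniteDimensional ℚ E] {q : ℕ} (hq : q ≠ 0) (r : ℕ) (hr : ∀ i, r < g i)
    (x : (Σ i, Fin (g i)) → ℤ) (hx : GoodU (splitPrimes E) g q x) :
    GenTateForRankOver E q r (fun i => weil q (polys g x i)) := by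
  intro V _ _ _ F hF s hs H _ _ _ G hG n c N m hN u
  have hQ : (q : ℂ) ^ s ≠ 0 := pow_ne_zero _ (by exact_mod_cast hq)
  obtain ⟨χ, hχ, hχe, hrank⟩ := hG
  refine ⟨fun hu => ?_, fun hu => killed_of_mem (F ^ s) G _ hQ n c N m u hu⟩
  exact mem_genProducts (F ^ s) _ (span_pow F hF s) ((q : ℂ) ^ s) hQ G
    (fun ρ hρ => exactPair_over g E hq r hr x hx s hs χ hχ hrank ρ (hχe ρ hρ)) n c N hN m u hu

end Pool.Agent.W484.TB
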